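import Pool.Agent.V8H55.AP.Stm
import Pool.Agent.V8H55.HW.Ap

/-!
# Averages of weights and functions
-/

set_option autoImplicit false

open MeasureTheory

namespace Pool.Agent.V8H55.AP

open Pool.Agent.V8H55.HW

/-- Hölder on a set -/
lemma hol {p : ℝ} (hp : 1 < p) {W : ℝ → ℝ} (hm : Measurable W)
    (hpos : ∀ᵐ x, 0 < W x) {k : ℝ → ℝ} (hk : AEMeasurable k) (S : Set ℝ) :
    (∫⁻ y in S, ENNReal.ofReal |k y|) ^ p ≤
      (∫⁻ y in S, ENNReal.ofReal (|k y| ^ p * W y)) * (∫⁻ y in S, ENNReal.ofReal (sig p W y)) ^ (p - 1) := by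
  have hp0 : 0 < p := by linarith
  have hp1 : 0 < p - 1 := by linarith
  have hpq : p.HolderConjugate (p / (p - 1)) := Real.HolderConjugate.conjExponent hp
  have h1 := ENNReal.lintegral_mul_le_Lp_mul_Lq (volume.restrict S) hpq
    (f := fun y => ENNReal.ofReal (|k y| * W y ^ (1 / p)))
    (g := fun y => ENNReal.ofReal (W y ^ (-(1 / p))))
    ((hk.restrict.abs.mul (hm.pow_const _).aemeasurable).ennreal_ofReal)
    ((hm.pow_const _).ennreal_ofReal.aemeasurable)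
  have h2 : ∫⁻ y in S, (((fun y => ENNReal.ofReal (|k y| * W y ^ (1 / p))) *
      (fun y => ENNReal.ofReal (W y ^ (-(1 / p))))) y) =
      ∫⁻ y in S, ENNReal.ofReal |k y| := by
    refine lintegral_congr_ae ?_
    filter_upwards [ae_restrict_of_ae hpos] with y hy
    simp only [Pi.mul_apply]
    rw [← ENNReal.ofReal_mul (by positivity), mul_assoc, ← Real.rpow_add hy]
    have : 1 / p + -(1 / p) = 0 := by ring
    rw [this, Real.rpow_zero, mul_one]
  have h3 : ∫⁻ y in S, (fun y => ENNReal.ofReal (|k y| * W y ^ (1 / p))) y ^ p =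
      ∫⁻ y in S, ENNReal.ofReal (|k y| ^ p * W y) := by
    refine lintegral_congr_ae ?_
    filter_upwards [ae_restrict_of_ae hpos] with y hy
    rw [ENNReal.ofReal_rpow_of_nonneg (by positivity) hp0.le,
      Real.mul_rpow (by positivity) (by positivity), ← Real.rpow_mul hy.le]
    have : 1 / p * p = 1 := by field_simp
    rw [this, Real.rpow_one]
  have h4 : ∫⁻ y in S, (fun y => ENNReal.ofReal (W y ^ (-(1 / p)))) y ^ (p / (p - 1)) =
      ∫⁻ y in S, ENNReal.ofReal (sig p W y) := by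
    refine lintegral_congr_ae ?_
    filter_upwards [ae_restrict_of_ae hpos] with y hy
    rw [ENNReal.ofReal_rpow_of_nonneg (by positivity) (by positivity), ← Real.rpow_mul hy.le]
    unfold sig
    congr 2
    field_simp
  rw [h2, h3, h4] at h1
  have h5 := ENNReal.rpow_le_rpow h1 hp0.le
  rw [ENNReal.mul_rpow_of_nonneg _ _ hp0.le, ← ENNReal.rpow_mul, ← ENNReal.rpow_mul] at h5
  have e1 : 1 / p * p = 1 := by field_simp
  have e2 : 1 / (p / (p - 1)) * p = p - 1 := by field_simp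
  rw [e1, e2, ENNReal.rpow_one] at h5
  exact h5

lemma ofReal_int {F : ℝ → ℝ} (hF : LocallyIntegrable F) (h0 : ∀ x, 0 ≤ F x) {a b : ℝ} (hab : a ≤ b) :
    ENNReal.ofReal (∫ x in a..b, F x) = ∫⁻ x in Set.Ico a b, ENNReal.ofReal (F x) := by
  rw [intervalIntegral.integral_of_le hab, ofReal_integral_eq_lintegral_ofReal]
  · exact setLIntegral_congr Ico_ae_eq_Ioc.symm
  · exact (hF.integrableOn_isCompact isCompact_Icc).mono_set Set.Ioc_subset_Icc_self
  · exact Filter.Eventually.of_forall h0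

lemma int_nonneg' {F : ℝ → ℝ} (h0 : ∀ x, 0 ≤ F x) {a b : ℝ} (hab : a ≤ b) : 0 ≤ ∫ x in a..b, F x :=
  intervalIntegral.integral_nonneg hab fun x _ => h0 x

lemma sum_av {F : ℝ → ℝ} (hF : LocallyIntegrable F) (δ : ℝ) (a : ℤ) (m : ℕ) :
    ∑ i ∈ Finset.Ico a (a + m), av δ F i = δ⁻¹ * ∫ x in ((a : ℝ) * δ)..(((a : ℝ) + m) * δ), F x := by
  induction m with
  | zero => simp
  | succ m ih =>
    have e : Finset.Ico a (a + ((m + 1 : ℕ) : ℤ)) = insert (a + (m : ℤ)) (Finset.Ico a (a + (m : ℤ))) := by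
      ext i
      simp only [Finset.mem_Ico, Finset.mem_insert]
      push_cast
      omega
    rw [e, Finset.sum_insert (by simp), ih]
    unfold av
    rw [← mul_add, add_comm]
    congr 1
    have e2 : (((a + (m : ℤ) : ℤ) : ℝ)) = (a : ℝ) + m := by push_cast; ring
    rw [e2]
    have e3 : ((a : ℝ) + m + 1) * δ = ((a : ℝ) + ((m + 1 : ℕ) : ℝ)) * δ := by push_cast; ring
    rw [e3]
    have hi : ∀ u v : ℝ, IntervalIntegrable F volume u v := fun u v =>
      (hF.integrableOn_isCompact isCompact_uIcc).intervalIntegrable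
    exact intervalIntegral.integral_add_adjacent_intervals (hi _ _) (hi _ _)

/-- the bound for a cell, in the extended reals -/
lemma cell_bound {p : ℝ} (_hp : 1 < p) {W : ℝ → ℝ} (hW : IsAp p W) :
    ∃ K : ℝ, 0 < K ∧ ∀ a b : ℝ, a < b →
      (∫ x in a..b, W x) * (∫ x in a..b, sig p W x) ^ (p - 1) ≤ K * (b - a) ^ p := by
  obtain ⟨c, hc⟩ := hW.bound
  refine ⟨max c 1, lt_max_of_lt_right one_pos, fun a b hab => ?_⟩
  have h1 := (hc a b hab).trans (le_max_left c 1)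
  have hba : 0 < b - a := by linarith
  have hS : 0 ≤ ∫ x in a..b, sig p W x := int_nonneg' (sig_nonneg hW.weight.nonneg) hab.le
  have e1 : ∫ x in a..b, W x ^ (-(1 / (p - 1))) = ∫ x in a..b, sig p W x := rfl
  rw [e1, Real.mul_rpow (by positivity) hS, Real.inv_rpow hba.le] at h1
  have e2 : (b - a) ^ p = (b - a) * (b - a) ^ (p - 1) := by
    nth_rewrite 2 [← Real.rpow_one (b - a)]
    rw [← Real.rpow_add hba]; congr 1; ring
  have hb2 : 0 < (b - a) ^ (p - 1) := Real.rpow_pos_of_pos hba _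
  have e3 : (b - a)⁻¹ * (∫ x in a..b, W x) * (((b - a) ^ (p - 1))⁻¹ * (∫ x in a..b, sig p W x) ^ (p - 1)) =
      ((∫ x in a..b, W x) * (∫ x in a..b, sig p W x) ^ (p - 1)) / ((b - a) * (b - a) ^ (p - 1)) := by
    field_simp
  rw [e3, div_le_iff₀ (by positivity), ← e2] at h1
  exact h1

theorem avAp : AvAp := by
  intro p W hp hW
  obtain ⟨K, hK, hKb⟩ := cell_bound hp hW
  have hp0 : 0 < p := by linarith
  have hp1 : 0 < p - 1 := by linarith
  have hm := hW.weight.meas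
  have h0 := hW.weight.nonneg
  have hloc := hW.weight.loc
  have hsloc : LocallyIntegrable (sig p W) := hW.dual
  have hpos := hW.pos
  have intpos : ∀ a b : ℝ, a < b → 0 < ∫ x in a..b, W x := by
    intro a b hab
    have h1 := mass_pos hm hpos hab
    have h2 : ENNReal.ofReal (∫ x in a..b, W x) = ∫⁻ x in Set.Ioo a b, ENNReal.ofReal (W x) := by
      rw [ofReal_int hloc h0 hab.le]
      exact setLIntegral_congr Ioo_ae_eq_Ico.symm
    rw [← h2] at h1
    exact ENNReal.ofReal_pos.1 h1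
  refine ⟨K, hK, fun δ hδ => ?_⟩
  have cell : ∀ n : ℤ, (n : ℝ) * δ < ((n : ℝ) + 1) * δ := fun n => by nlinarith
  have hav : ∀ n, 0 < av δ W n := fun n => mul_pos (inv_pos.2 hδ) (intpos _ _ (cell n))
  refine ⟨hav, fun a m => ?_⟩
  rcases Nat.eq_zero_or_pos m with hz | hmp
  · subst hz; simp [hp0.ne']
  -- comparison of the dual averages
  have hdual : ∀ n, av δ W n ^ (-(1 / (p - 1))) ≤ av δ (sig p W) n := by
    intro n
    have hS0 : 0 ≤ av δ (sig p W) n := mul_nonneg (inv_pos.2 hδ).le (int_nonneg' (sig_nonneg h0) (cell n).le)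
    have h1 := hol hp hm hpos (k := fun _ => 1) aemeasurable_const (Set.Ico ((n : ℝ) * δ) (((n : ℝ) + 1) * δ))
    simp only [abs_one, Real.one_rpow, one_mul, ENNReal.ofReal_one, lintegral_const, Measure.restrict_apply MeasurableSet.univ,
      Set.univ_inter, Real.volume_Ico] at h1
    rw [← ofReal_int hloc h0 (cell n).le, ← ofReal_int hsloc (sig_nonneg h0) (cell n).le] at h1
    have e1 : ((n : ℝ) + 1) * δ - n * δ = δ := by ring
    have hI : 0 ≤ ∫ x in ((n : ℝ) * δ)..(((n : ℝ) + 1) * δ), sig p W x := int_nonneg' (sig_nonneg h0) (cell n).le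
    rw [e1, ENNReal.ofReal_rpow_of_nonneg hδ.le hp0.le, ENNReal.ofReal_rpow_of_nonneg hI hp1.le,
      ← ENNReal.ofReal_mul (intpos _ _ (cell n)).le] at h1
    have h2 : δ ^ p ≤ (∫ x in ((n : ℝ) * δ)..(((n : ℝ) + 1) * δ), W x) *
        (∫ x in ((n : ℝ) * δ)..(((n : ℝ) + 1) * δ), sig p W x) ^ (p - 1) :=
      (ENNReal.ofReal_le_ofReal_iff (mul_nonneg (intpos _ _ (cell n)).le (Real.rpow_nonneg hI _))).1 h1
    have e2 : δ ^ p = δ * δ ^ (p - 1) := by
      nth_rewrite 2 [← Real.rpow_one δ]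
      rw [← Real.rpow_add hδ]; congr 1; ring
    have hd1 : 0 < δ ^ (p - 1) := Real.rpow_pos_of_pos hδ _
    have h3 : 1 ≤ av δ W n * av δ (sig p W) n ^ (p - 1) := by
      unfold av
      rw [Real.mul_rpow (inv_pos.2 hδ).le hI, Real.inv_rpow hδ.le]
      have : δ⁻¹ * (∫ x in ((n : ℝ) * δ)..(((n : ℝ) + 1) * δ), W x) * ((δ ^ (p - 1))⁻¹ *
          (∫ x in ((n : ℝ) * δ)..(((n : ℝ) + 1) * δ), sig p W x) ^ (p - 1)) =
          ((∫ x in ((n : ℝ) * δ)..(((n : ℝ) + 1) * δ), W x) *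
        (∫ x in ((n : ℝ) * δ)..(((n : ℝ) + 1) * δ), sig p W x) ^ (p - 1)) / δ ^ p := by
        rw [e2]; field_simp
      rw [this, le_div_iff₀ (Real.rpow_pos_of_pos hδ _), one_mul]
      exact h2
    have h4 : (av δ W n)⁻¹ ≤ av δ (sig p W) n ^ (p - 1) := by
      rw [inv_le_iff_one_le_mul₀ (hav n), mul_comm]; exact h3
    have h5 := Real.rpow_le_rpow (inv_pos.2 (hav n)).le h4 (by positivity : 0 ≤ 1 / (p - 1))
    rw [← Real.rpow_mul hS0, mul_one_div_cancel hp1.ne', Real.rpow_one, Real.inv_rpow (hav n).le,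
      ← Real.rpow_neg (hav n).le] at h5
    exact h5
  have hmR : (0 : ℝ) < m := by exact_mod_cast hmp
  have hlt : (a : ℝ) * δ < ((a : ℝ) + m) * δ := by nlinarith [mul_pos hmR hδ]
  have hS1 : ∑ i ∈ Finset.Ico a (a + m), av δ W i ^ (-(1 / (p - 1))) ≤
      δ⁻¹ * ∫ x in ((a : ℝ) * δ)..(((a : ℝ) + m) * δ), sig p W x := by
    rw [← sum_av hsloc]
    exact Finset.sum_le_sum fun i _ => hdual i
  have hS2 : 0 ≤ ∑ i ∈ Finset.Ico a (a + m), av δ W i ^ (-(1 / (p - 1))) :=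
    Finset.sum_nonneg fun i _ => Real.rpow_nonneg (hav i).le _
  have hI1 : 0 ≤ ∫ x in ((a : ℝ) * δ)..(((a : ℝ) + m) * δ), sig p W x := int_nonneg' (sig_nonneg h0) hlt.le
  have hb := hKb _ _ hlt
  have e5 : ((a : ℝ) + m) * δ - a * δ = m * δ := by ring
  rw [e5, Real.mul_rpow hmR.le hδ.le] at hb
  rw [sum_av hloc]
  have hδp : 0 < δ ^ (p - 1) := Real.rpow_pos_of_pos hδ _
  have e6 : δ ^ p = δ * δ ^ (p - 1) := by
    nth_rewrite 2 [← Real.rpow_one δ]
    rw [← Real.rpow_add hδ]; congr 1; ring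
  calc δ⁻¹ * (∫ x in ((a : ℝ) * δ)..(((a : ℝ) + m) * δ), W x) *
        (∑ i ∈ Finset.Ico a (a + m), av δ W i ^ (-(1 / (p - 1)))) ^ (p - 1)
      ≤ δ⁻¹ * (∫ x in ((a : ℝ) * δ)..(((a : ℝ) + m) * δ), W x) *
        (δ⁻¹ * ∫ x in ((a : ℝ) * δ)..(((a : ℝ) + m) * δ), sig p W x) ^ (p - 1) := by
        apply mul_le_mul_of_nonneg_left (Real.rpow_le_rpow hS2 hS1 hp1.le)
        exact mul_nonneg (inv_pos.2 hδ).le (intpos _ _ hlt).le
    _ = ((∫ x in ((a : ℝ) * δ)..(((a : ℝ) + m) * δ), W x) *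
        (∫ x in ((a : ℝ) * δ)..(((a : ℝ) + m) * δ), sig p W x) ^ (p - 1)) / δ ^ p := by
        rw [Real.mul_rpow (inv_pos.2 hδ).le hI1, Real.inv_rpow hδ.le, e6]; field_simp
    _ ≤ (K * ((m : ℝ) ^ p * δ ^ p)) / δ ^ p := by
        apply div_le_div_of_nonneg_right hb (Real.rpow_nonneg hδ.le _)
    _ = K * (m : ℝ) ^ p := by
        have : 0 < δ ^ p := Real.rpow_pos_of_pos hδ _
        field_simp

theorem avNorm : AvNorm := by
  intro p W hp hW
  obtain ⟨K, hK, hKb⟩ := cell_bound hp hW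
  have hp0 : 0 < p := by linarith
  have hp1 : 0 < p - 1 := by linarith
  have hm := hW.weight.meas
  have h0 := hW.weight.nonneg
  have hloc := hW.weight.loc
  have hsloc : LocallyIntegrable (sig p W) := hW.dual
  have hpos := hW.pos
  refine ⟨K, hK, fun δ hδ f hf n => ?_⟩
  have cell : (n : ℝ) * δ < ((n : ℝ) + 1) * δ := by nlinarith
  have hfl : LocallyIntegrable (fun x => |f x|) := hf.abs.locallyIntegrable
  have hF0 : 0 ≤ ∫ x in ((n : ℝ) * δ)..(((n : ℝ) + 1) * δ), |f x| := int_nonneg' (fun x => abs_nonneg _) cell.le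
  have hW0 : 0 ≤ ∫ x in ((n : ℝ) * δ)..(((n : ℝ) + 1) * δ), W x := int_nonneg' h0 cell.le
  have hS0 : 0 ≤ ∫ x in ((n : ℝ) * δ)..(((n : ℝ) + 1) * δ), sig p W x := int_nonneg' (sig_nonneg h0) cell.le
  have hδp : 0 < δ ^ p := Real.rpow_pos_of_pos hδ _
  have h1 := hol hp hm hpos hf.aemeasurable (Set.Ico ((n : ℝ) * δ) (((n : ℝ) + 1) * δ))
  rw [← ofReal_int hfl (fun x => abs_nonneg _) cell.le, ← ofReal_int hsloc (sig_nonneg h0) cell.le,
    ENNReal.ofReal_rpow_of_nonneg hF0 hp0.le, ENNReal.ofReal_rpow_of_nonneg hS0 hp1.le] at h1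
  have hb := hKb _ _ cell
  have e1 : ((n : ℝ) + 1) * δ - n * δ = δ := by ring
  rw [e1] at hb
  set X := ∫⁻ x in Set.Ico ((n : ℝ) * δ) (((n : ℝ) + 1) * δ), ENNReal.ofReal (|f x| ^ p * W x) with hX
  have e2 : av δ (fun x => |f x|) n ^ p * (δ * av δ W n) =
      (δ ^ p)⁻¹ * ((∫ x in ((n : ℝ) * δ)..(((n : ℝ) + 1) * δ), W x) *
        (∫ x in ((n : ℝ) * δ)..(((n : ℝ) + 1) * δ), |f x|) ^ p) := by
    unfold av
    rw [Real.mul_rpow (inv_pos.2 hδ).le hF0, Real.inv_rpow hδ.le]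
    field_simp
  rw [e2, ENNReal.ofReal_mul (by positivity), ENNReal.ofReal_mul hW0]
  calc ENNReal.ofReal (δ ^ p)⁻¹ * (ENNReal.ofReal (∫ x in ((n : ℝ) * δ)..(((n : ℝ) + 1) * δ), W x) *
        ENNReal.ofReal ((∫ x in ((n : ℝ) * δ)..(((n : ℝ) + 1) * δ), |f x|) ^ p))
      ≤ ENNReal.ofReal (δ ^ p)⁻¹ * (ENNReal.ofReal (∫ x in ((n : ℝ) * δ)..(((n : ℝ) + 1) * δ), W x) *
        (X * ENNReal.ofReal ((∫ x in ((n : ℝ) * δ)..(((n : ℝ) + 1) * δ), sig p W x) ^ (p - 1)))) := by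
        gcongr
    _ = ENNReal.ofReal ((δ ^ p)⁻¹ * ((∫ x in ((n : ℝ) * δ)..(((n : ℝ) + 1) * δ), W x) *
        (∫ x in ((n : ℝ) * δ)..(((n : ℝ) + 1) * δ), sig p W x) ^ (p - 1))) * X := by
        rw [ENNReal.ofReal_mul (by positivity), ENNReal.ofReal_mul hW0]; ring
    _ ≤ ENNReal.ofReal K * X := by
        gcongr
        rw [inv_mul_le_iff₀ hδp, mul_comm (δ ^ p) K]; exact hb

end Pool.Agent.V8H55.AP
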