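import Pool.Agent.V8H55.AP.Part

/-!
# The estimates for one step
-/

set_option autoImplicit false

open Finset

namespace Pool.Agent.V8H55.AP

theorem geo (S t : ℕ) : ∑ s ∈ Finset.range S, (if t ≤ s then (2 : ℝ) ^ t / 2 ^ s else 0) ≤ 2 := by
  have h : ∀ S : ℕ, ∑ s ∈ Finset.range S, (if t ≤ s then (2 : ℝ) ^ t / 2 ^ s else 0) ≤
      2 - (if t ≤ S then 2 * (2 : ℝ) ^ t / 2 ^ S else 2) := by
    intro S
    induction S with
    | zero =>
      simp only [Finset.range_zero, Finset.sum_empty, pow_zero, div_one]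
      split_ifs with h
      · have : t = 0 := by omega
        rw [this]; norm_num
      · norm_num
    | succ n ih =>
      rw [Finset.sum_range_succ]
      split_ifs at ih ⊢ with h1 h2 h3
      · have : (2 : ℝ) ^ t / 2 ^ n = 2 * 2 ^ t / 2 ^ (n + 1) := by rw [pow_succ]; field_simp
        have e : 2 * (2 : ℝ) ^ t / 2 ^ n = 2 * (2 ^ t / 2 ^ n) := by ring
        rw [e, this] at ih
        rw [this]; linarith
      · omega
      · have : t = n + 1 := by omega
        subst this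
        have : 2 * (2 : ℝ) ^ (n + 1) / 2 ^ (n + 1) = 2 := by field_simp
        rw [this]; linarith
      · linarith
  refine (h S).trans ?_
  split_ifs
  · have : (0 : ℝ) ≤ 2 * 2 ^ t / 2 ^ S := by positivity
    linarith
  · norm_num

section

variable {τ : ℤ → ℕ}

/-- left end of the cell -/
def cl (κ : ℕ × ℤ) : ℤ := κ.2 * 2 ^ κ.1

theorem cl_near (n : ℤ) : |n - cl (key τ n)| < 2 ^ τ n := by
  have h0 : (0 : ℤ) < 2 ^ τ n := by positivity
  unfold cl key
  simp only
  have h1 := Int.ediv_mul_le n h0.ne'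
  have h2 := Int.lt_ediv_add_one_mul_self n h0
  rw [add_mul, one_mul] at h2
  rw [abs_lt]
  constructor <;> omega

theorem cl_div (n : ℤ) : cl (key τ n) / 2 ^ τ n = n / 2 ^ τ n := by
  have h0 : (0 : ℤ) < 2 ^ τ n := by positivity
  unfold cl key
  simp only
  exact Int.mul_ediv_cancel _ h0.ne'

theorem ks_diff {s : ℕ} {n m : ℤ} (h : τ n ≤ s) :
    |Ks s (m - n) - Ks s (m - cl (key τ n))| ≤ if |m - n| < 2 ^ (s + 2) then 2 * 2 ^ τ n / 4 ^ s else 0 := by
  have h1 := cl_near (τ := τ) n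
  have h2 : (2 : ℤ) ^ τ n ≤ 2 ^ s := pow_le_pow_right₀ (by norm_num) h
  have p1 : (2 : ℤ) ^ (s + 1) = 2 * 2 ^ s := by ring
  have p2 : (2 : ℤ) ^ (s + 2) = 4 * 2 ^ s := by ring
  have h0 : (0 : ℤ) < 2 ^ s := by positivity
  split_ifs with hc
  · refine (Ks_lip s _ _).trans ?_
    apply div_le_div_of_nonneg_right _ (by positivity)
    have e : m - n - (m - cl (key τ n)) = -(n - cl (key τ n)) := by ring
    rw [e]
    have h3 : |((-(n - cl (key τ n)) : ℤ) : ℝ)| ≤ 2 ^ τ n := by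
      rw [← Int.cast_abs, abs_neg]
      exact_mod_cast h1.le
    linarith
  · rw [p2] at hc
    rw [Ks_far, Ks_far]
    · simp
    · rw [p1]
      rw [abs_lt] at h1
      rw [not_lt, le_abs] at hc
      rw [le_abs]
      omega
    · rw [p1]; linarith [not_lt.1 hc]

end

section

variable {f g : ℤ → ℝ} {S : ℕ} {j : ℤ} {la lb : ℝ} {τ τ' : ℤ → ℕ}

/-- the hypotheses on the two stopping functions -/
structure Hyp (f g : ℤ → ℝ) (S : ℕ) (j : ℤ) (la lb : ℝ) (τ τ' : ℤ → ℕ) : Prop where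
  f0 : ∀ n, 0 ≤ f n
  g0 : ∀ n, 0 ≤ g n
  la0 : 0 ≤ la
  lb0 : 0 ≤ lb
  st : Stop τ
  st' : Stop τ'
  clI : Closed τ (I S j)
  clJ : Closed τ' (J S j)
  lt : ∀ n, τ n < S
  lt' : ∀ n, τ' n < S
  F1 : ∀ n ∈ I S j, ∀ s, τ n ≤ s → s < S → ∑ n' ∈ I (s + 1) (n / 2 ^ (s + 1)), f n' ≤ la * 2 ^ (s + 1)
  G1 : ∀ n ∈ J S j, ∀ s, τ' n ≤ s → s < S → ∑ n' ∈ I (s + 1) (n / 2 ^ (s + 1)), g n' ≤ lb * 2 ^ (s + 1)
  F2 : ∀ n ∈ I S j, ∀ s, τ n ≤ s → ∀ m : ℤ, |m - n| < 2 ^ (s + 1) → τ' m ≤ s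

theorem I_sub_I {n : ℤ} {t s : ℕ} (h : t ≤ s) : I t (n / 2 ^ t) ⊆ I s (n / 2 ^ s) := by
  intro n' hn'
  rw [mem_I] at hn' ⊢
  exact div_mono_eq hn' h

theorem ca_le_f (H : Hyp f g S j la lb τ τ') {n : ℤ} (hn : n ∈ I S j) : ca τ f n ≤ 2 * la := by
  unfold ca
  rw [div_le_iff₀ (by positivity)]
  have h1 : ∑ n' ∈ I (τ n) (n / 2 ^ τ n), f n' ≤ ∑ n' ∈ I (τ n + 1) (n / 2 ^ (τ n + 1)), f n' :=
    Finset.sum_le_sum_of_subset_of_nonneg (I_sub_I (Nat.le_succ _)) fun _ _ _ => H.f0 _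
  have h2 := H.F1 n hn (τ n) le_rfl (H.lt n)
  have e : la * 2 ^ (τ n + 1) = 2 * la * 2 ^ τ n := by ring
  linarith

theorem ca_le_g (H : Hyp f g S j la lb τ τ') {n : ℤ} (hn : n ∈ J S j) : ca τ' g n ≤ 2 * lb := by
  unfold ca
  rw [div_le_iff₀ (by positivity)]
  have h1 : ∑ n' ∈ I (τ' n) (n / 2 ^ τ' n), g n' ≤ ∑ n' ∈ I (τ' n + 1) (n / 2 ^ (τ' n + 1)), g n' :=
    Finset.sum_le_sum_of_subset_of_nonneg (I_sub_I (Nat.le_succ _)) fun _ _ _ => H.g0 _
  have h2 := H.G1 n hn (τ' n) le_rfl (H.lt' n)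
  have e : lb * 2 ^ (τ' n + 1) = 2 * lb * 2 ^ τ' n := by ring
  linarith

theorem ks_diff' (H : Hyp f g S j la lb τ τ') {s : ℕ} {n m : ℤ} (hn : n ∈ I S j) (h : τ n ≤ s) :
    |Ks s (m - n) - Ks s (cl (key τ' m) - n)| ≤
      if τ' m ≤ s ∧ |m - n| < 2 ^ (s + 2) then 2 * 2 ^ τ' m / 4 ^ s else 0 := by
  have h1 := cl_near (τ := τ') m
  have p1 : (2 : ℤ) ^ (s + 1) = 2 * 2 ^ s := by ring
  have p2 : (2 : ℤ) ^ (s + 2) = 4 * 2 ^ s := by ring
  have h0 : (0 : ℤ) < 2 ^ s := by positivity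
  split_ifs with hc
  · refine (Ks_lip s _ _).trans ?_
    apply div_le_div_of_nonneg_right _ (by positivity)
    have e : m - n - (cl (key τ' m) - n) = m - cl (key τ' m) := by ring
    rw [e]
    have h3 : |((m - cl (key τ' m) : ℤ) : ℝ)| ≤ 2 ^ τ' m := by
      rw [← Int.cast_abs]
      exact_mod_cast h1.le
    linarith
  · have h4 : 2 ^ (s + 1) ≤ |m - n| := by
      by_contra hcon
      push Not at hcon
      apply hc
      refine ⟨H.F2 n hn s h m hcon, ?_⟩
      rw [p2]; rw [p1] at hcon; linarith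
    have h5 : 2 ^ (s + 1) ≤ |cl (key τ' m) - n| := by
      by_contra hcon
      push Not at hcon
      have h6 := H.F2 n hn s h _ hcon
      rw [H.st' m _ (cl_div m)] at h6
      apply hc
      refine ⟨h6, ?_⟩
      have h2 : (2 : ℤ) ^ τ' m ≤ 2 ^ s := pow_le_pow_right₀ (by norm_num) h6
      rw [p2]; rw [p1] at hcon
      rw [abs_lt] at h1 hcon ⊢
      constructor <;> omega
    rw [Ks_far h4, Ks_far h5]; simp

theorem near_sum (H : Hyp f g S j la lb τ τ') {s : ℕ} (hs : s < S) (m : ℤ) :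
    ∑ n ∈ I S j, (if τ n ≤ s ∧ |m - n| < 2 ^ (s + 2) then f n else 0) ≤ 10 * la * 2 ^ s := by
  rw [← Finset.sum_filter]
  have h0 : (0 : ℤ) < 2 ^ (s + 1) := by positivity
  have hmap : ∀ n ∈ (I S j).filter (fun n => τ n ≤ s ∧ |m - n| < 2 ^ (s + 2)),
      n / 2 ^ (s + 1) ∈ Finset.Icc (m / 2 ^ (s + 1) - 2) (m / 2 ^ (s + 1) + 2) := by
    intro n hn
    rw [Finset.mem_filter] at hn
    have h1 := hn.2.2
    have p2 : (2 : ℤ) ^ (s + 2) = 2 * 2 ^ (s + 1) := by ring
    rw [p2, abs_lt] at h1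
    rw [Finset.mem_Icc]
    have h3 := Int.ediv_mul_le m h0.ne'
    have h4 := Int.lt_ediv_add_one_mul_self m h0
    have h5 := Int.ediv_mul_le n h0.ne'
    have h6 := Int.lt_ediv_add_one_mul_self n h0
    set q := (2 : ℤ) ^ (s + 1)
    set u := m / q
    set v := n / q
    constructor
    · by_contra hcon
      have : v ≤ u - 3 := by omega
      nlinarith
    · by_contra hcon
      have : u + 3 ≤ v := by omega
      nlinarith
  rw [← Finset.sum_fiberwise_of_maps_to hmap]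
  calc _ ≤ ∑ _r ∈ Finset.Icc (m / 2 ^ (s + 1) - 2) (m / 2 ^ (s + 1) + 2), la * 2 ^ (s + 1) := by
        refine Finset.sum_le_sum fun r _ => ?_
        rcases Finset.eq_empty_or_nonempty (((I S j).filter (fun n => τ n ≤ s ∧ |m - n| < 2 ^ (s + 2))).filter
          (fun n => n / 2 ^ (s + 1) = r)) with he | ⟨n0, hn0⟩
        · rw [he, Finset.sum_empty]
          have := H.la0
          positivity
        · rw [Finset.mem_filter, Finset.mem_filter] at hn0
          obtain ⟨⟨h1, h2, h3⟩, rfl⟩ := hn0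
          refine le_trans ?_ (H.F1 n0 h1 s h2 hs)
          refine Finset.sum_le_sum_of_subset_of_nonneg ?_ fun _ _ _ => H.f0 _
          intro n hn
          rw [Finset.mem_filter] at hn
          rw [mem_I]; exact hn.2
    _ = 10 * la * 2 ^ s := by
        rw [Finset.sum_const, Int.card_Icc]
        have : (m / 2 ^ (s + 1) + 2 + 1 - (m / 2 ^ (s + 1) - 2)).toNat = 5 := by
          have : m / 2 ^ (s + 1) + 2 + 1 - (m / 2 ^ (s + 1) - 2) = 5 := by ring
          rw [this]; rfl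
        rw [this, pow_succ, nsmul_eq_mul]; push_cast; ring

theorem card_near (n : ℤ) (s : ℕ) (U : Finset ℤ) : ((#(U.filter (fun m => |m - n| < 2 ^ (s + 2))) : ℕ) : ℝ) ≤ 8 * 2 ^ s := by
  have h1 : U.filter (fun m => |m - n| < 2 ^ (s + 2)) ⊆ Finset.Ico (n - 2 ^ (s + 2)) (n + 2 ^ (s + 2)) := by
    intro m hm
    rw [Finset.mem_filter, abs_lt] at hm
    rw [Finset.mem_Ico]
    constructor <;> omega
  have h2 := Finset.card_le_card h1
  rw [Int.card_Ico] at h2
  have h3 : n + 2 ^ (s + 2) - (n - 2 ^ (s + 2)) = ((8 * 2 ^ s : ℕ) : ℤ) := by push_cast; ring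
  rw [h3, Int.toNat_natCast] at h2
  exact_mod_cast h2

/-- first estimate -/
theorem X1 (H : Hyp f g S j la lb τ τ') :
    |∑ n ∈ I S j, ∑ m ∈ J S j, f n * (g m - ca τ' g m) * (T S (m - n) - T (τ n) (m - n))| ≤
      80 * la * ∑ m ∈ J S j, g m := by
  classical
  have e1 : ∀ n ∈ I S j, ∑ m ∈ J S j, f n * (g m - ca τ' g m) * (T S (m - n) - T (τ n) (m - n)) =
      ∑ s ∈ Finset.range S, if τ n ≤ s then f n * ∑ m ∈ J S j, (g m - ca τ' g m) *
        (Ks s (m - n) - Ks s (cl (key τ' m) - n)) else 0 := by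
    intro n _
    have e2 : ∀ m ∈ J S j, f n * (g m - ca τ' g m) * (T S (m - n) - T (τ n) (m - n)) =
        ∑ s ∈ Finset.range S, if τ n ≤ s then f n * ((g m - ca τ' g m) * Ks s (m - n)) else 0 := by
      intro m _
      rw [T_sub S (τ n) (H.lt n).le, Finset.mul_sum]
      refine Finset.sum_congr rfl fun s _ => ?_
      split_ifs <;> ring
    rw [Finset.sum_congr rfl e2, Finset.sum_comm]
    refine Finset.sum_congr rfl fun s _ => ?_
    split_ifs with hs
    · rw [← Finset.mul_sum]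
      congr 1
      have h1 := canc H.st' H.clJ g (fun κ => Ks s (cl κ - n))
      simp only [mul_sub, Finset.sum_sub_distrib] at h1 ⊢
      linarith
    · simp
  rw [Finset.sum_congr rfl e1]
  have e3 : ∀ n ∈ I S j, |∑ s ∈ Finset.range S, if τ n ≤ s then f n * ∑ m ∈ J S j, (g m - ca τ' g m) *
        (Ks s (m - n) - Ks s (cl (key τ' m) - n)) else 0| ≤
      ∑ s ∈ Finset.range S, ∑ m ∈ J S j, (|g m - ca τ' g m| * (if τ' m ≤ s then 2 * 2 ^ τ' m / 4 ^ s else 0)) *
        (if τ n ≤ s ∧ |m - n| < 2 ^ (s + 2) then f n else 0) := by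
    intro n hn
    refine (Finset.abs_sum_le_sum_abs _ _).trans ?_
    refine Finset.sum_le_sum fun s _ => ?_
    split_ifs with hs
    · rw [abs_mul, abs_of_nonneg (H.f0 n)]
      calc f n * |∑ m ∈ J S j, (g m - ca τ' g m) * (Ks s (m - n) - Ks s (cl (key τ' m) - n))|
          ≤ f n * ∑ m ∈ J S j, |g m - ca τ' g m| * (if τ' m ≤ s ∧ |m - n| < 2 ^ (s + 2) then 2 * 2 ^ τ' m / 4 ^ s else 0) := by
            apply mul_le_mul_of_nonneg_left _ (H.f0 n)
            refine (Finset.abs_sum_le_sum_abs _ _).trans ?_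
            refine Finset.sum_le_sum fun m _ => ?_
            rw [abs_mul]
            exact mul_le_mul_of_nonneg_left (ks_diff' H hn hs) (abs_nonneg _)
        _ = _ := by
            rw [Finset.mul_sum]
            refine Finset.sum_congr rfl fun m _ => ?_
            by_cases h1 : τ' m ≤ s <;> by_cases h2 : |m - n| < 2 ^ (s + 2) <;> simp [h1, h2, hs] <;> ring
    · rw [abs_zero]
      refine Finset.sum_nonneg fun m _ => ?_
      simp [hs]
  refine (Finset.abs_sum_le_sum_abs _ _).trans ((Finset.sum_le_sum e3).trans ?_)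
  have e4 : ∑ n ∈ I S j, ∑ s ∈ Finset.range S, ∑ m ∈ J S j, (|g m - ca τ' g m| * (if τ' m ≤ s then 2 * 2 ^ τ' m / 4 ^ s else 0)) *
        (if τ n ≤ s ∧ |m - n| < 2 ^ (s + 2) then f n else 0) =
      ∑ m ∈ J S j, |g m - ca τ' g m| * ∑ s ∈ Finset.range S, (if τ' m ≤ s then 2 * 2 ^ τ' m / 4 ^ s else 0) *
        ∑ n ∈ I S j, (if τ n ≤ s ∧ |m - n| < 2 ^ (s + 2) then f n else 0) := by
    rw [Finset.sum_comm]
    simp only [Finset.mul_sum]
    rw [Finset.sum_comm (s := J S j)]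
    refine Finset.sum_congr rfl fun s _ => ?_
    rw [Finset.sum_comm]
    refine Finset.sum_congr rfl fun m _ => ?_
    refine Finset.sum_congr rfl fun n _ => ?_
    ring
  rw [e4]
  calc ∑ m ∈ J S j, |g m - ca τ' g m| * ∑ s ∈ Finset.range S, (if τ' m ≤ s then 2 * 2 ^ τ' m / 4 ^ s else 0) *
        ∑ n ∈ I S j, (if τ n ≤ s ∧ |m - n| < 2 ^ (s + 2) then f n else 0)
      ≤ ∑ m ∈ J S j, |g m - ca τ' g m| * (40 * la) := by
        refine Finset.sum_le_sum fun m _ => ?_
        apply mul_le_mul_of_nonneg_left _ (abs_nonneg _)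
        calc ∑ s ∈ Finset.range S, (if τ' m ≤ s then 2 * 2 ^ τ' m / 4 ^ s else 0) *
              ∑ n ∈ I S j, (if τ n ≤ s ∧ |m - n| < 2 ^ (s + 2) then f n else 0)
            ≤ ∑ s ∈ Finset.range S, 20 * la * (if τ' m ≤ s then (2 : ℝ) ^ τ' m / 2 ^ s else 0) := by
              refine Finset.sum_le_sum fun s hs => ?_
              rw [Finset.mem_range] at hs
              split_ifs with h1
              · calc (2 * (2 : ℝ) ^ τ' m / 4 ^ s) * ∑ n ∈ I S j, (if τ n ≤ s ∧ |m - n| < 2 ^ (s + 2) then f n else 0)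
                    ≤ (2 * 2 ^ τ' m / 4 ^ s) * (10 * la * 2 ^ s) :=
                      mul_le_mul_of_nonneg_left (near_sum H hs m) (by positivity)
                  _ = 20 * la * (2 ^ τ' m / 2 ^ s) := by
                      have : (4 : ℝ) ^ s = 2 ^ s * 2 ^ s := by rw [← mul_pow]; norm_num
                      rw [this]; field_simp; ring
              · simp
          _ ≤ 40 * la := by
              rw [← Finset.mul_sum]
              have := geo S (τ' m)
              have := H.la0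
              nlinarith
    _ ≤ 80 * la * ∑ m ∈ J S j, g m := by
        rw [← Finset.sum_mul]
        have := sum_abs_sub H.st' H.clJ H.g0
        have := H.la0
        nlinarith

/-- second estimate -/
theorem X2 (H : Hyp f g S j la lb τ τ') :
    |∑ n ∈ I S j, ∑ m ∈ J S j, (f n - ca τ f n) * ca τ' g m * (T S (m - n) - T (τ n) (m - n))| ≤
      128 * lb * ∑ n ∈ I S j, f n := by
  classical
  have e1 : ∑ n ∈ I S j, ∑ m ∈ J S j, (f n - ca τ f n) * ca τ' g m * (T S (m - n) - T (τ n) (m - n)) =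
      ∑ m ∈ J S j, ca τ' g m * ∑ s ∈ Finset.range S, ∑ n ∈ I S j, (f n - ca τ f n) *
        (if τ n ≤ s then Ks s (m - n) - Ks s (m - cl (key τ n)) else 0) := by
    rw [Finset.sum_comm]
    refine Finset.sum_congr rfl fun m _ => ?_
    have e2 : ∀ n ∈ I S j, (f n - ca τ f n) * ca τ' g m * (T S (m - n) - T (τ n) (m - n)) =
        ca τ' g m * ∑ s ∈ Finset.range S, (f n - ca τ f n) * (if τ n ≤ s then Ks s (m - n) else 0) := by
      intro n _
      rw [T_sub S (τ n) (H.lt n).le, ← Finset.mul_sum]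
      ring
    rw [Finset.sum_congr rfl e2, ← Finset.mul_sum, Finset.sum_comm]
    congr 1
    refine Finset.sum_congr rfl fun s _ => ?_
    have h1 := canc H.st H.clI f (fun κ => if κ.1 ≤ s then Ks s (m - cl κ) else 0)
    have e3 : ∀ n ∈ I S j, (f n - ca τ f n) * (if τ n ≤ s then Ks s (m - n) else 0) =
        (f n - ca τ f n) * (if τ n ≤ s then Ks s (m - n) - Ks s (m - cl (key τ n)) else 0) +
        (f n - ca τ f n) * (if (key τ n).1 ≤ s then Ks s (m - cl (key τ n)) else 0) := by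
      intro n _
      have : (key τ n).1 = τ n := rfl
      rw [this]
      split_ifs <;> ring
    rw [Finset.sum_congr rfl e3, Finset.sum_add_distrib, h1, add_zero]
  rw [e1]
  have e5 : ∀ m ∈ J S j, |ca τ' g m * ∑ s ∈ Finset.range S, ∑ n ∈ I S j, (f n - ca τ f n) *
        (if τ n ≤ s then Ks s (m - n) - Ks s (m - cl (key τ n)) else 0)| ≤
      2 * lb * ∑ s ∈ Finset.range S, ∑ n ∈ I S j, (|f n - ca τ f n| * (if τ n ≤ s then 2 * 2 ^ τ n / 4 ^ s else 0)) *
        (if |m - n| < 2 ^ (s + 2) then 1 else 0) := by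
    intro m hm
    rw [abs_mul, abs_of_nonneg (ca_nonneg H.g0 m)]
    apply mul_le_mul (ca_le_g H hm) _ (abs_nonneg _) (by linarith [H.lb0])
    refine (Finset.abs_sum_le_sum_abs _ _).trans ?_
    refine Finset.sum_le_sum fun s _ => ?_
    refine (Finset.abs_sum_le_sum_abs _ _).trans ?_
    refine Finset.sum_le_sum fun n _ => ?_
    rw [abs_mul, mul_assoc]
    apply mul_le_mul_of_nonneg_left _ (abs_nonneg _)
    split_ifs with h1 h2
    · have := ks_diff (m := m) h1
      rw [if_pos h2] at this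
      rw [mul_one]; exact this
    · have := ks_diff (m := m) h1
      rw [if_neg h2] at this
      rw [mul_zero]; exact this
    · simp
    · simp
  refine (Finset.abs_sum_le_sum_abs _ _).trans ((Finset.sum_le_sum e5).trans ?_)
  rw [← Finset.mul_sum]
  have e6 : ∑ m ∈ J S j, ∑ s ∈ Finset.range S, ∑ n ∈ I S j, (|f n - ca τ f n| * (if τ n ≤ s then 2 * 2 ^ τ n / 4 ^ s else 0)) *
        (if |m - n| < 2 ^ (s + 2) then (1 : ℝ) else 0) =
      ∑ n ∈ I S j, |f n - ca τ f n| * ∑ s ∈ Finset.range S, (if τ n ≤ s then 2 * 2 ^ τ n / 4 ^ s else 0) *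
        ∑ m ∈ J S j, (if |m - n| < 2 ^ (s + 2) then (1 : ℝ) else 0) := by
    rw [Finset.sum_comm]
    simp only [Finset.mul_sum]
    rw [Finset.sum_comm (s := I S j)]
    refine Finset.sum_congr rfl fun s _ => ?_
    rw [Finset.sum_comm]
    refine Finset.sum_congr rfl fun m _ => ?_
    refine Finset.sum_congr rfl fun n _ => ?_
    ring
  rw [e6]
  have e7 : ∑ n ∈ I S j, |f n - ca τ f n| * ∑ s ∈ Finset.range S, (if τ n ≤ s then 2 * 2 ^ τ n / 4 ^ s else 0) *
        ∑ m ∈ J S j, (if |m - n| < 2 ^ (s + 2) then (1 : ℝ) else 0) ≤ ∑ n ∈ I S j, |f n - ca τ f n| * 32 := by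
    refine Finset.sum_le_sum fun n _ => ?_
    apply mul_le_mul_of_nonneg_left _ (abs_nonneg _)
    calc ∑ s ∈ Finset.range S, (if τ n ≤ s then 2 * 2 ^ τ n / 4 ^ s else 0) *
          ∑ m ∈ J S j, (if |m - n| < 2 ^ (s + 2) then (1 : ℝ) else 0)
        ≤ ∑ s ∈ Finset.range S, 16 * (if τ n ≤ s then (2 : ℝ) ^ τ n / 2 ^ s else 0) := by
          refine Finset.sum_le_sum fun s _ => ?_
          have h1 : ∑ m ∈ J S j, (if |m - n| < 2 ^ (s + 2) then (1 : ℝ) else 0) ≤ 8 * 2 ^ s := by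
            rw [← Finset.sum_filter, Finset.sum_const, nsmul_eq_mul, mul_one]
            exact card_near n s (J S j)
          split_ifs with h2
          · calc (2 * (2 : ℝ) ^ τ n / 4 ^ s) * ∑ m ∈ J S j, (if |m - n| < 2 ^ (s + 2) then (1 : ℝ) else 0)
                ≤ (2 * 2 ^ τ n / 4 ^ s) * (8 * 2 ^ s) := mul_le_mul_of_nonneg_left h1 (by positivity)
              _ = 16 * (2 ^ τ n / 2 ^ s) := by
                  have : (4 : ℝ) ^ s = 2 ^ s * 2 ^ s := by rw [← mul_pow]; norm_num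
                  rw [this]; field_simp; norm_num
          · simp
      _ ≤ 32 := by
          rw [← Finset.mul_sum]
          have := geo S (τ n)
          linarith
  rw [← Finset.sum_mul] at e7
  have e8 := sum_abs_sub H.st H.clI H.f0
  have := H.lb0
  nlinarith

end

end Pool.Agent.V8H55.AP
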