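import Pool.Agent.V8H55.AP.WS
import Pool.Agent.V8H55.AP.StepA

/-!
# The error operator
-/

set_option autoImplicit false

open Finset

namespace Pool.Agent.V8H55.AP

theorem holder_w {p : ℝ} (hp : 1 < p) {w f : ℤ → ℝ} (hw : ∀ n, 0 < w n) (hf : ∀ n, 0 ≤ f n) (E : Finset ℤ) :
    (∑ n ∈ E, f n) ^ p ≤ (∑ n ∈ E, f n ^ p * w n) * (∑ n ∈ E, w n ^ (-(1 / (p - 1)))) ^ (p - 1) := by
  have hp0 : 0 < p := by linarith
  have hp1 : 0 < p - 1 := by linarith
  have hpq : p.HolderConjugate (Real.conjExponent p) := Real.HolderConjugate.conjExponent hp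
  have hq : 1 / Real.conjExponent p = 1 - 1 / p := by
    unfold Real.conjExponent; field_simp
  have hq' : (1 - 1 / p) * Real.conjExponent p = 1 := by
    unfold Real.conjExponent; field_simp
  have hsig : ∀ n, 0 < w n ^ (-(1 / (p - 1))) := fun n => Real.rpow_pos_of_pos (hw n) _
  have h1 := Real.inner_le_Lp_mul_Lq_of_nonneg (s := E) (f := fun n => f n * w n ^ (1 / p))
    (g := fun n => (w n ^ (-(1 / (p - 1)))) ^ (1 - 1 / p)) hpq
    (fun n _ => mul_nonneg (hf n) (Real.rpow_pos_of_pos (hw n) _).le) (fun n _ => (Real.rpow_pos_of_pos (hsig n) _).le)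
  have e1 : ∀ n ∈ E, f n * w n ^ (1 / p) * (w n ^ (-(1 / (p - 1)))) ^ (1 - 1 / p) = f n := fun n _ => by
    rw [mul_assoc, wsig hp (hw n), mul_one]
  have e2 : ∀ n ∈ E, (f n * w n ^ (1 / p)) ^ p = f n ^ p * w n := fun n _ => by
    rw [Real.mul_rpow (hf n) (Real.rpow_nonneg (hw n).le _), ← Real.rpow_mul (hw n).le, one_div_mul_cancel hp0.ne',
      Real.rpow_one]
  have e3 : ∀ n ∈ E, ((w n ^ (-(1 / (p - 1)))) ^ (1 - 1 / p)) ^ Real.conjExponent p = w n ^ (-(1 / (p - 1))) := fun n _ => by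
    rw [← Real.rpow_mul (hsig n).le, hq', Real.rpow_one]
  rw [Finset.sum_congr rfl e1, Finset.sum_congr rfl e2, Finset.sum_congr rfl e3, hq] at h1
  have hW : 0 ≤ ∑ n ∈ E, f n ^ p * w n := Finset.sum_nonneg fun n _ => mul_nonneg (Real.rpow_nonneg (hf n) _) (hw n).le
  have hS : 0 ≤ ∑ n ∈ E, w n ^ (-(1 / (p - 1))) := Finset.sum_nonneg fun n _ => (hsig n).le
  calc (∑ n ∈ E, f n) ^ p ≤ ((∑ n ∈ E, f n ^ p * w n) ^ (1 / p) * (∑ n ∈ E, w n ^ (-(1 / (p - 1)))) ^ (1 - 1 / p)) ^ p :=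
        Real.rpow_le_rpow (Finset.sum_nonneg fun n _ => hf n) h1 hp0.le
    _ = (∑ n ∈ E, f n ^ p * w n) * (∑ n ∈ E, w n ^ (-(1 / (p - 1)))) ^ (p - 1) := by
        rw [Real.mul_rpow (Real.rpow_nonneg hW _) (Real.rpow_nonneg hS _), ← Real.rpow_mul hW, ← Real.rpow_mul hS,
          one_div_mul_cancel hp0.ne', Real.rpow_one]
        have : (1 - 1 / p) * p = p - 1 := by field_simp
        rw [this]

/-- one averaging operator -/
theorem one_avg {p K : ℝ} (hp : 1 < p) {w f : ℤ → ℝ} (hw : ∀ n, 0 < w n) (hA : DAp p K w)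
    (hf : ∀ n, 0 ≤ f n) (U : Finset ℤ) (i : ℕ) :
    ∑ m ∈ U, (∑ n ∈ U, if |m - n| < 2 ^ i then f n else 0) ^ p * w m ≤
      K * (4 * 2 ^ i) ^ p * ∑ n ∈ U, f n ^ p * w n := by
  have hp1 : 0 < p - 1 := by linarith
  set σ : ℤ → ℝ := fun n => w n ^ (-(1 / (p - 1))) with hσ
  have hsig : ∀ n, 0 < σ n := fun n => Real.rpow_pos_of_pos (hw n) _
  set B : ℤ → Finset ℤ := fun n => Finset.Ico (n - 2 * 2 ^ i) (n - 2 * 2 ^ i + ((4 * 2 ^ i : ℕ) : ℤ)) with hB
  have hmB : ∀ n m : ℤ, |m - n| < 2 * 2 ^ i → m ∈ B n := by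
    intro n m h
    rw [hB]
    simp only
    rw [Finset.mem_Ico]
    push_cast
    rw [abs_lt] at h
    constructor <;> linarith
  have h0 : (0 : ℤ) < 2 ^ i := by positivity
  have step : ∀ m ∈ U, (∑ n ∈ U, if |m - n| < 2 ^ i then f n else 0) ^ p * w m ≤
      ∑ n ∈ U, (f n ^ p * w n * (∑ l ∈ B n, σ l) ^ (p - 1)) * (if |m - n| < 2 ^ i then w m else 0) := by
    intro m _
    rw [← Finset.sum_filter]
    have h1 := holder_w hp hw hf (U.filter (fun n => |m - n| < 2 ^ i))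
    calc (∑ n ∈ U.filter (fun n => |m - n| < 2 ^ i), f n) ^ p * w m
        ≤ ((∑ n ∈ U.filter (fun n => |m - n| < 2 ^ i), f n ^ p * w n) *
            (∑ n ∈ U.filter (fun n => |m - n| < 2 ^ i), σ n) ^ (p - 1)) * w m :=
          mul_le_mul_of_nonneg_right h1 (hw m).le
      _ = ∑ n ∈ U.filter (fun n => |m - n| < 2 ^ i), (f n ^ p * w n *
            (∑ l ∈ U.filter (fun n => |m - n| < 2 ^ i), σ l) ^ (p - 1)) * w m := by
          rw [Finset.sum_mul, Finset.sum_mul]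
      _ ≤ ∑ n ∈ U.filter (fun n => |m - n| < 2 ^ i), (f n ^ p * w n * (∑ l ∈ B n, σ l) ^ (p - 1)) * w m := by
          refine Finset.sum_le_sum fun n hn => ?_
          rw [Finset.mem_filter] at hn
          apply mul_le_mul_of_nonneg_right _ (hw m).le
          apply mul_le_mul_of_nonneg_left _ (mul_nonneg (Real.rpow_nonneg (hf n) _) (hw n).le)
          apply Real.rpow_le_rpow (Finset.sum_nonneg fun l _ => (hsig l).le) _ hp1.le
          apply Finset.sum_le_sum_of_subset_of_nonneg _ fun l _ _ => (hsig l).le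
          intro l hl
          rw [Finset.mem_filter] at hl
          apply hmB
          have h2 := hn.2
          have h3 := hl.2
          rw [abs_lt] at h2 h3 ⊢
          constructor <;> linarith
      _ = _ := by
          rw [Finset.sum_filter]
          refine Finset.sum_congr rfl fun n _ => ?_
          split_ifs <;> simp
  refine (Finset.sum_le_sum step).trans ?_
  rw [Finset.sum_comm, Finset.mul_sum]
  refine Finset.sum_le_sum fun n _ => ?_
  rw [← Finset.mul_sum, ← Finset.sum_filter]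
  have h2 : ∑ m ∈ U.filter (fun m => |m - n| < 2 ^ i), w m ≤ ∑ m ∈ B n, w m := by
    apply Finset.sum_le_sum_of_subset_of_nonneg _ fun l _ _ => (hw l).le
    intro m hm
    rw [Finset.mem_filter] at hm
    apply hmB
    linarith [hm.2]
  have h3 : (∑ m ∈ B n, w m) * (∑ l ∈ B n, σ l) ^ (p - 1) ≤ K * (4 * 2 ^ i) ^ p := by
    have := hA (n - 2 * 2 ^ i) (4 * 2 ^ i)
    push_cast at this ⊢
    rw [hB]
    push_cast
    exact this
  have h4 : 0 ≤ (∑ l ∈ B n, σ l) ^ (p - 1) := Real.rpow_nonneg (Finset.sum_nonneg fun l _ => (hsig l).le) _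
  have h5 : 0 ≤ f n ^ p * w n := mul_nonneg (Real.rpow_nonneg (hf n) _) (hw n).le
  calc f n ^ p * w n * (∑ l ∈ B n, σ l) ^ (p - 1) * ∑ m ∈ U.filter (fun m => |m - n| < 2 ^ i), w m
      ≤ f n ^ p * w n * (∑ l ∈ B n, σ l) ^ (p - 1) * ∑ m ∈ B n, w m :=
        mul_le_mul_of_nonneg_left h2 (mul_nonneg h5 h4)
    _ = f n ^ p * w n * ((∑ m ∈ B n, w m) * (∑ l ∈ B n, σ l) ^ (p - 1)) := by ring
    _ ≤ f n ^ p * w n * (K * (4 * 2 ^ i) ^ p) := mul_le_mul_of_nonneg_left h3 h5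
    _ = _ := by ring

theorem kernel_le {k : ℤ} {L : ℕ} (h : |k| < 2 ^ L) :
    1 / (1 + (k : ℝ) ^ 2) ≤ 4 * ∑ i ∈ Finset.range (L + 1), (1 / 4 : ℝ) ^ i * (if |k| < 2 ^ i then 1 else 0) := by
  classical
  -- the least i
  have hex : ∃ i : ℕ, |k| < 2 ^ i := ⟨L, h⟩
  set i0 := Nat.find hex with hi0
  have h1 : |k| < 2 ^ i0 := Nat.find_spec hex
  have h2 : i0 ≤ L := Nat.find_min' hex h
  have h3 : (1 / 4 : ℝ) ^ i0 ≤ ∑ i ∈ Finset.range (L + 1), (1 / 4 : ℝ) ^ i * (if |k| < 2 ^ i then 1 else 0) := by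
    have := Finset.single_le_sum (s := Finset.range (L + 1)) (f := fun i => (1 / 4 : ℝ) ^ i * (if |k| < 2 ^ i then 1 else 0))
      (fun i _ => by positivity) (Finset.mem_range.2 (by omega : i0 < L + 1))
    simp only [h1, if_true, mul_one] at this
    exact this
  refine le_trans ?_ (mul_le_mul_of_nonneg_left h3 (by norm_num))
  rcases Nat.eq_zero_or_pos i0 with hz | hpos
  · rw [hz, pow_zero, mul_one, div_le_iff₀ (by positivity)]
    nlinarith [sq_nonneg (k : ℝ)]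
  · have h4 : ¬ |k| < 2 ^ (i0 - 1) := Nat.find_min hex (by omega)
    rw [not_lt] at h4
    have h5 : (2 : ℝ) ^ (i0 - 1) ≤ |(k : ℝ)| := by exact_mod_cast h4
    have h6 : (4 : ℝ) ^ (i0 - 1) ≤ (k : ℝ) ^ 2 := by
      rw [← sq_abs]
      have : (4 : ℝ) ^ (i0 - 1) = (2 ^ (i0 - 1)) ^ 2 := by rw [← pow_mul, mul_comm, pow_mul]; norm_num
      rw [this]
      exact pow_le_pow_left₀ (by positivity) h5 2
    have h7 : (4 : ℝ) ^ i0 = 4 * 4 ^ (i0 - 1) := by
      obtain ⟨r, hr⟩ := Nat.exists_eq_succ_of_ne_zero hpos.ne'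
      rw [hr]; simp only [Nat.succ_eq_add_one, Nat.add_sub_cancel]; ring
    rw [one_div_pow, h7, div_le_iff₀ (by positivity)]
    have h8 : (0 : ℝ) < 4 ^ (i0 - 1) := by positivity
    have h9 : 4 * (1 / (4 * (4 : ℝ) ^ (i0 - 1))) = 1 / 4 ^ (i0 - 1) := by field_simp
    rw [h9, div_mul_eq_mul_div, le_div_iff₀ h8]
    linarith

theorem davg : DAvg := by
  intro p K hp hK
  have hp0 : 0 < p := by linarith
  have hp1 : 0 < p - 1 := by linarith
  refine ⟨K * 4 ^ p * (4 ^ p * 2 ^ p), by positivity, ?_⟩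
  intro w hw hA U f hf
  -- a bound for the differences
  obtain ⟨L, hL⟩ : ∃ L : ℕ, ∀ m ∈ U, ∀ n ∈ U, |m - n| < 2 ^ L := by
    set D := ∑ m ∈ U, ∑ n ∈ U, |m - n| with hD
    refine ⟨D.toNat, fun m hm n hn => ?_⟩
    have h1 : |m - n| ≤ D := by
      rw [hD]
      refine le_trans (Finset.single_le_sum (f := fun n => |m - n|) (fun _ _ => abs_nonneg _) hn) ?_
      exact Finset.single_le_sum (f := fun m => ∑ n ∈ U, |m - n|) (fun _ _ => Finset.sum_nonneg fun _ _ => abs_nonneg _) hm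
    have h2 : D ≤ (D.toNat : ℤ) := Int.self_le_toNat _
    have h3 : ((D.toNat : ℕ) : ℤ) < 2 ^ D.toNat := by exact_mod_cast Nat.lt_two_pow_self
    linarith
  set X := ∑ n ∈ U, f n ^ p * w n with hX
  have hX0 : 0 ≤ X := Finset.sum_nonneg fun n _ => mul_nonneg (Real.rpow_nonneg (hf n) _) (hw n).le
  set a : ℕ → ℤ → ℝ := fun i m => ∑ n ∈ U, if |m - n| < 2 ^ i then f n else 0 with ha
  have ha0 : ∀ i m, 0 ≤ a i m := fun i m => Finset.sum_nonneg fun n _ => by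
    split_ifs; exacts [hf n, le_rfl]
  set R := Finset.range (L + 1) with hR
  set W : ℝ := ∑ i ∈ R, (1 / 2 : ℝ) ^ i with hW
  have hW0 : 0 < W := Finset.sum_pos (fun i _ => by positivity) ⟨0, by rw [hR, Finset.mem_range]; omega⟩
  have hW2 : W ≤ 2 := by
    rw [hW, hR]
    have := geo (L + 1) 0
    refine le_trans (le_of_eq ?_) this
    refine Finset.sum_congr rfl fun i _ => ?_
    rw [if_pos (Nat.zero_le _), pow_zero, one_div_pow]
  have hpt : ∀ m ∈ U, (∑ n ∈ U, f n / (1 + ((m - n : ℤ) : ℝ) ^ 2)) ^ p ≤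
      4 ^ p * (2 ^ (p - 1) * ∑ i ∈ R, (1 / 2 : ℝ) ^ i * ((1 / 2 : ℝ) ^ i * a i m) ^ p) := by
    intro m hm
    have h1 : ∑ n ∈ U, f n / (1 + ((m - n : ℤ) : ℝ) ^ 2) ≤ 4 * ∑ i ∈ R, (1 / 2 : ℝ) ^ i * ((1 / 2 : ℝ) ^ i * a i m) := by
      have e : 4 * ∑ i ∈ R, (1 / 2 : ℝ) ^ i * ((1 / 2 : ℝ) ^ i * a i m) =
          ∑ n ∈ U, f n * (4 * ∑ i ∈ R, (1 / 4 : ℝ) ^ i * (if |m - n| < 2 ^ i then 1 else 0)) := by
        rw [ha]
        simp only [Finset.mul_sum]
        rw [Finset.sum_comm]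
        refine Finset.sum_congr rfl fun n _ => Finset.sum_congr rfl fun i _ => ?_
        have : (1 / 4 : ℝ) ^ i = (1 / 2) ^ i * (1 / 2) ^ i := by rw [← mul_pow]; norm_num
        rw [this]
        split_ifs <;> ring
      rw [e]
      refine Finset.sum_le_sum fun n hn => ?_
      rw [div_eq_mul_one_div]
      exact mul_le_mul_of_nonneg_left (kernel_le (hL m hm n hn)) (hf n)
    have h2 : (∑ i ∈ R, (1 / 2 : ℝ) ^ i * ((1 / 2 : ℝ) ^ i * a i m)) ^ p ≤
        2 ^ (p - 1) * ∑ i ∈ R, (1 / 2 : ℝ) ^ i * ((1 / 2 : ℝ) ^ i * a i m) ^ p := by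
      have h3 := Real.rpow_arith_mean_le_arith_mean_rpow R (fun i => (1 / 2 : ℝ) ^ i / W) (fun i => (1 / 2 : ℝ) ^ i * a i m)
        (fun i _ => by positivity) (by rw [← Finset.sum_div]; exact div_self hW0.ne')
        (fun i _ => mul_nonneg (by positivity) (ha0 i m)) hp.le
      have e1 : ∑ i ∈ R, (1 / 2 : ℝ) ^ i / W * ((1 / 2 : ℝ) ^ i * a i m) = (∑ i ∈ R, (1 / 2 : ℝ) ^ i * ((1 / 2 : ℝ) ^ i * a i m)) / W := by
        rw [Finset.sum_div]; refine Finset.sum_congr rfl fun i _ => ?_; ring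
      have e2 : ∑ i ∈ R, (1 / 2 : ℝ) ^ i / W * ((1 / 2 : ℝ) ^ i * a i m) ^ p = (∑ i ∈ R, (1 / 2 : ℝ) ^ i * ((1 / 2 : ℝ) ^ i * a i m) ^ p) / W := by
        rw [Finset.sum_div]; refine Finset.sum_congr rfl fun i _ => ?_; ring
      rw [e1, e2, Real.div_rpow (Finset.sum_nonneg fun i _ => mul_nonneg (by positivity) (mul_nonneg (by positivity) (ha0 i m))) hW0.le,
        div_le_iff₀ (Real.rpow_pos_of_pos hW0 _)] at h3
      have e3 : (∑ i ∈ R, (1 / 2 : ℝ) ^ i * ((1 / 2 : ℝ) ^ i * a i m) ^ p) / W * W ^ p =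
          W ^ (p - 1) * ∑ i ∈ R, (1 / 2 : ℝ) ^ i * ((1 / 2 : ℝ) ^ i * a i m) ^ p := by
        rw [Real.rpow_sub hW0, Real.rpow_one]; ring
      rw [e3] at h3
      refine h3.trans ?_
      apply mul_le_mul_of_nonneg_right (Real.rpow_le_rpow hW0.le hW2 hp1.le)
      exact Finset.sum_nonneg fun i _ => mul_nonneg (by positivity) (Real.rpow_nonneg (mul_nonneg (by positivity) (ha0 i m)) _)
    calc (∑ n ∈ U, f n / (1 + ((m - n : ℤ) : ℝ) ^ 2)) ^ p
        ≤ (4 * ∑ i ∈ R, (1 / 2 : ℝ) ^ i * ((1 / 2 : ℝ) ^ i * a i m)) ^ p :=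
          Real.rpow_le_rpow (Finset.sum_nonneg fun n _ => div_nonneg (hf n) (by positivity)) h1 hp0.le
      _ = 4 ^ p * (∑ i ∈ R, (1 / 2 : ℝ) ^ i * ((1 / 2 : ℝ) ^ i * a i m)) ^ p := by
          rw [Real.mul_rpow (by norm_num) (Finset.sum_nonneg fun i _ => mul_nonneg (by positivity) (mul_nonneg (by positivity) (ha0 i m)))]
      _ ≤ _ := mul_le_mul_of_nonneg_left h2 (by positivity)
  calc ∑ m ∈ U, (∑ n ∈ U, f n / (1 + ((m - n : ℤ) : ℝ) ^ 2)) ^ p * w m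
      ≤ ∑ m ∈ U, (4 ^ p * (2 ^ (p - 1) * ∑ i ∈ R, (1 / 2 : ℝ) ^ i * ((1 / 2 : ℝ) ^ i * a i m) ^ p)) * w m :=
        Finset.sum_le_sum fun m hm => mul_le_mul_of_nonneg_right (hpt m hm) (hw m).le
    _ = 4 ^ p * (2 ^ (p - 1) * ∑ i ∈ R, (1 / 2 : ℝ) ^ i * ∑ m ∈ U, ((1 / 2 : ℝ) ^ i * a i m) ^ p * w m) := by
        simp only [Finset.mul_sum, Finset.sum_mul]
        rw [Finset.sum_comm]
        refine Finset.sum_congr rfl fun i _ => Finset.sum_congr rfl fun m _ => ?_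
        ring
    _ ≤ 4 ^ p * (2 ^ (p - 1) * ∑ i ∈ R, (1 / 2 : ℝ) ^ i * (K * 4 ^ p * X)) := by
        apply mul_le_mul_of_nonneg_left _ (by positivity)
        apply mul_le_mul_of_nonneg_left _ (by positivity)
        refine Finset.sum_le_sum fun i _ => ?_
        apply mul_le_mul_of_nonneg_left _ (by positivity)
        have h1 := one_avg hp hw hA hf U i
        have e1 : ∑ m ∈ U, ((1 / 2 : ℝ) ^ i * a i m) ^ p * w m = ((1 / 2 : ℝ) ^ i) ^ p * ∑ m ∈ U, a i m ^ p * w m := by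
          rw [Finset.mul_sum]
          refine Finset.sum_congr rfl fun m _ => ?_
          rw [Real.mul_rpow (by positivity) (ha0 i m)]; ring
        rw [e1]
        calc ((1 / 2 : ℝ) ^ i) ^ p * ∑ m ∈ U, a i m ^ p * w m ≤ ((1 / 2 : ℝ) ^ i) ^ p * (K * (4 * 2 ^ i) ^ p * X) :=
              mul_le_mul_of_nonneg_left h1 (by positivity)
          _ = K * ((((1 / 2 : ℝ) ^ i) ^ p) * (4 * 2 ^ i) ^ p) * X := by ring
          _ = K * 4 ^ p * X := by
              rw [← Real.mul_rpow (by positivity) (by positivity)]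
              have : (1 / 2 : ℝ) ^ i * (4 * 2 ^ i) = 4 := by rw [one_div_pow]; field_simp
              rw [this]
    _ = 4 ^ p * (2 ^ (p - 1) * (W * (K * 4 ^ p * X))) := by rw [← Finset.sum_mul]
    _ ≤ 4 ^ p * (2 ^ (p - 1) * (2 * (K * 4 ^ p * X))) := by
        apply mul_le_mul_of_nonneg_left _ (by positivity)
        apply mul_le_mul_of_nonneg_left _ (by positivity)
        exact mul_le_mul_of_nonneg_right hW2 (by positivity)
    _ = K * 4 ^ p * (4 ^ p * 2 ^ p) * X := by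
        have : (2 : ℝ) ^ p = 2 ^ (p - 1) * 2 := by
          rw [Real.rpow_sub (by norm_num), Real.rpow_one]; ring
        rw [this]; ring

end Pool.Agent.V8H55.AP
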