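import Pool.Agent.V8H55.AP.Stm

/-!
# Hilbert's inequality
-/

set_option autoImplicit false

open Finset

namespace Pool.Agent.V8H55.AP

theorem int_cos (k : ℤ) : ∫ t in (0 : ℝ)..1, Real.cos (2 * Real.pi * k * t) = if k = 0 then 1 else 0 := by
  split_ifs with h
  · rw [h]; simp
  · have hk : (k : ℝ) ≠ 0 := by exact_mod_cast h
    have hpi := Real.pi_ne_zero
    have hd : ∀ t ∈ Set.uIcc (0 : ℝ) 1, HasDerivAt (fun t : ℝ => Real.sin (2 * Real.pi * k * t) / (2 * Real.pi * k))
        (Real.cos (2 * Real.pi * k * t)) t := by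
      intro t _
      have h1 : HasDerivAt (fun t : ℝ => 2 * Real.pi * k * t) (2 * Real.pi * k) t := by
        have := (hasDerivAt_id t).const_mul (2 * Real.pi * (k : ℝ))
        rw [mul_one] at this
        exact this
      have h2 := h1.sin.div_const (2 * Real.pi * (k : ℝ))
      have e : Real.cos (2 * Real.pi * k * t) * (2 * Real.pi * k) / (2 * Real.pi * k) = Real.cos (2 * Real.pi * k * t) := by
        field_simp
      rw [e] at h2
      exact h2
    rw [intervalIntegral.integral_eq_sub_of_hasDerivAt hd ((by fun_prop : Continuous fun t : ℝ => Real.cos (2 * Real.pi * k * t)).intervalIntegrable _ _)]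
    have e1 : Real.sin (2 * Real.pi * k * 1) = 0 := by
      have : 2 * Real.pi * (k : ℝ) * 1 = (2 * k : ℤ) * Real.pi := by push_cast; ring
      rw [this]; exact Real.sin_int_mul_pi _
    rw [e1]; simp

theorem int_sin (k : ℤ) : ∫ t in (0 : ℝ)..1, (Real.pi - 2 * Real.pi * t) * Real.sin (2 * Real.pi * k * t) = (k : ℝ)⁻¹ := by
  rcases eq_or_ne k 0 with h | h
  · rw [h]; simp
  · have hk : (k : ℝ) ≠ 0 := by exact_mod_cast h
    have hpi := Real.pi_ne_zero
    have hd : ∀ t ∈ Set.uIcc (0 : ℝ) 1, HasDerivAt (fun t : ℝ => -((Real.pi - 2 * Real.pi * t) * Real.cos (2 * Real.pi * k * t)) / (2 * Real.pi * k)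
        - Real.sin (2 * Real.pi * k * t) / (2 * Real.pi * k ^ 2))
        ((Real.pi - 2 * Real.pi * t) * Real.sin (2 * Real.pi * k * t)) t := by
      intro t _
      have h1 : HasDerivAt (fun t : ℝ => 2 * Real.pi * k * t) (2 * Real.pi * k) t := by
        have := (hasDerivAt_id t).const_mul (2 * Real.pi * (k : ℝ))
        rw [mul_one] at this
        exact this
      have h0 : HasDerivAt (fun t : ℝ => Real.pi - 2 * Real.pi * t) (-(2 * Real.pi)) t := by
        have := ((hasDerivAt_id t).const_mul (2 * Real.pi)).const_sub Real.pi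
        rw [mul_one] at this
        exact this
      have h2 := ((h0.mul h1.cos).neg.div_const (2 * Real.pi * (k : ℝ))).sub (h1.sin.div_const (2 * Real.pi * (k : ℝ) ^ 2))
      refine h2.congr_deriv ?_
      field_simp
      ring
    rw [intervalIntegral.integral_eq_sub_of_hasDerivAt hd
      ((by fun_prop : Continuous fun t : ℝ => (Real.pi - 2 * Real.pi * t) * Real.sin (2 * Real.pi * k * t)).intervalIntegrable _ _)]
    have e1 : Real.sin (2 * Real.pi * k * 1) = 0 := by
      have : 2 * Real.pi * (k : ℝ) * 1 = (2 * k : ℤ) * Real.pi := by push_cast; ring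
      rw [this]; exact Real.sin_int_mul_pi _
    have e2 : Real.cos (2 * Real.pi * k * 1) = 1 := by
      have : 2 * Real.pi * (k : ℝ) * 1 = k * (2 * Real.pi) := by ring
      rw [this]; exact Real.cos_int_mul_two_pi k
    rw [e1, e2]
    simp only [mul_zero, Real.sin_zero, Real.cos_zero, mul_one, sub_zero, zero_div]
    field_simp
    ring

theorem int_sq (U : Finset ℤ) (f : ℤ → ℝ) :
    ∫ t in (0 : ℝ)..1, ((∑ n ∈ U, f n * Real.cos (2 * Real.pi * n * t)) ^ 2 +
      (∑ n ∈ U, f n * Real.sin (2 * Real.pi * n * t)) ^ 2) = ∑ n ∈ U, f n ^ 2 := by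
  have e1 : ∀ t : ℝ, ((∑ n ∈ U, f n * Real.cos (2 * Real.pi * n * t)) ^ 2 +
      (∑ n ∈ U, f n * Real.sin (2 * Real.pi * n * t)) ^ 2) =
      ∑ n ∈ U, ∑ m ∈ U, f n * f m * Real.cos (2 * Real.pi * ((n - m : ℤ) : ℝ) * t) := by
    intro t
    rw [sq, sq, Finset.sum_mul_sum, Finset.sum_mul_sum, ← Finset.sum_add_distrib]
    refine Finset.sum_congr rfl fun n _ => ?_
    rw [← Finset.sum_add_distrib]
    refine Finset.sum_congr rfl fun m _ => ?_
    have : 2 * Real.pi * ((n - m : ℤ) : ℝ) * t = 2 * Real.pi * n * t - 2 * Real.pi * m * t := by push_cast; ring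
    rw [this, Real.cos_sub]; ring
  simp only [e1]
  rw [intervalIntegral.integral_finsetSum]
  · refine Finset.sum_congr rfl fun n hn => ?_
    rw [intervalIntegral.integral_finsetSum]
    · rw [Finset.sum_eq_single n]
      · rw [intervalIntegral.integral_const_mul, int_cos]; simp [sq]
      · intro m _ hm
        rw [intervalIntegral.integral_const_mul, int_cos, if_neg (sub_ne_zero.2 (Ne.symm hm)), mul_zero]
      · intro h; exact absurd hn h
    · intro m _
      exact (by fun_prop : Continuous fun t : ℝ => f n * f m * Real.cos (2 * Real.pi * ((n - m : ℤ) : ℝ) * t)).intervalIntegrable _ _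
  · intro n _
    exact (by fun_prop : Continuous fun t : ℝ => ∑ m ∈ U, f n * f m * Real.cos (2 * Real.pi * ((n - m : ℤ) : ℝ) * t)).intervalIntegrable _ _

theorem form_eq (U : Finset ℤ) (f g : ℤ → ℝ) : ∑ n ∈ U, ∑ m ∈ U, f n * g m * ((m - n : ℤ) : ℝ)⁻¹ =
    ∫ t in (0 : ℝ)..1, (Real.pi - 2 * Real.pi * t) * (
      (∑ n ∈ U, f n * Real.cos (2 * Real.pi * n * t)) * (∑ n ∈ U, g n * Real.sin (2 * Real.pi * n * t)) -
      (∑ n ∈ U, f n * Real.sin (2 * Real.pi * n * t)) * (∑ n ∈ U, g n * Real.cos (2 * Real.pi * n * t))) := by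
  have e1 : ∀ t : ℝ, (Real.pi - 2 * Real.pi * t) * (
      (∑ n ∈ U, f n * Real.cos (2 * Real.pi * n * t)) * (∑ n ∈ U, g n * Real.sin (2 * Real.pi * n * t)) -
      (∑ n ∈ U, f n * Real.sin (2 * Real.pi * n * t)) * (∑ n ∈ U, g n * Real.cos (2 * Real.pi * n * t))) =
      ∑ n ∈ U, ∑ m ∈ U, f n * g m * ((Real.pi - 2 * Real.pi * t) * Real.sin (2 * Real.pi * ((m - n : ℤ) : ℝ) * t)) := by
    intro t
    rw [Finset.sum_mul_sum, Finset.sum_mul_sum, ← Finset.sum_sub_distrib, Finset.mul_sum]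
    refine Finset.sum_congr rfl fun n _ => ?_
    rw [← Finset.sum_sub_distrib, Finset.mul_sum]
    refine Finset.sum_congr rfl fun m _ => ?_
    have : 2 * Real.pi * ((m - n : ℤ) : ℝ) * t = 2 * Real.pi * m * t - 2 * Real.pi * n * t := by push_cast; ring
    rw [this, Real.sin_sub]; ring
  simp only [e1]
  rw [intervalIntegral.integral_finsetSum]
  · refine Finset.sum_congr rfl fun n hn => ?_
    rw [intervalIntegral.integral_finsetSum]
    · refine Finset.sum_congr rfl fun m hm => ?_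
      rw [intervalIntegral.integral_const_mul, int_sin]
    · intro m _
      exact (by fun_prop : Continuous fun t : ℝ => f n * g m * ((Real.pi - 2 * Real.pi * t) * Real.sin (2 * Real.pi * ((m - n : ℤ) : ℝ) * t))).intervalIntegrable _ _
  · intro n _
    exact (by fun_prop : Continuous fun t : ℝ => ∑ m ∈ U, f n * g m * ((Real.pi - 2 * Real.pi * t) * Real.sin (2 * Real.pi * ((m - n : ℤ) : ℝ) * t))).intervalIntegrable _ _

theorem form_le (U : Finset ℤ) (f g : ℤ → ℝ) {l : ℝ} (hl : 0 < l) :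
    ∑ n ∈ U, ∑ m ∈ U, f n * g m * ((m - n : ℤ) : ℝ)⁻¹ ≤
      Real.pi / 2 * (l * ∑ n ∈ U, f n ^ 2 + l⁻¹ * ∑ m ∈ U, g m ^ 2) := by
  rw [form_eq, ← int_sq U f, ← int_sq U g, ← intervalIntegral.integral_const_mul, ← intervalIntegral.integral_const_mul,
    ← intervalIntegral.integral_add, ← intervalIntegral.integral_const_mul]
  · apply intervalIntegral.integral_mono_on (by norm_num)
    · exact (by fun_prop : Continuous fun t : ℝ => (Real.pi - 2 * Real.pi * t) * (
        (∑ n ∈ U, f n * Real.cos (2 * Real.pi * n * t)) * (∑ n ∈ U, g n * Real.sin (2 * Real.pi * n * t)) -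
        (∑ n ∈ U, f n * Real.sin (2 * Real.pi * n * t)) * (∑ n ∈ U, g n * Real.cos (2 * Real.pi * n * t)))).intervalIntegrable _ _
    · exact (by fun_prop : Continuous fun t : ℝ => Real.pi / 2 * (l * ((∑ n ∈ U, f n * Real.cos (2 * Real.pi * n * t)) ^ 2 +
        (∑ n ∈ U, f n * Real.sin (2 * Real.pi * n * t)) ^ 2) + l⁻¹ * ((∑ n ∈ U, g n * Real.cos (2 * Real.pi * n * t)) ^ 2 +
        (∑ n ∈ U, g n * Real.sin (2 * Real.pi * n * t)) ^ 2))).intervalIntegrable _ _
    · intro t ht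
      set a := ∑ n ∈ U, f n * Real.cos (2 * Real.pi * n * t)
      set b := ∑ n ∈ U, f n * Real.sin (2 * Real.pi * n * t)
      set c := ∑ n ∈ U, g n * Real.cos (2 * Real.pi * n * t)
      set e := ∑ n ∈ U, g n * Real.sin (2 * Real.pi * n * t)
      have hpi := Real.pi_pos
      have h1 : |Real.pi - 2 * Real.pi * t| ≤ Real.pi := by
        rw [abs_le]; constructor <;> nlinarith [ht.1, ht.2]
      have key : |a * e - b * c| ≤ (l * (a ^ 2 + b ^ 2) + l⁻¹ * (c ^ 2 + e ^ 2)) / 2 := by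
        have hl' : 0 < l⁻¹ := inv_pos.2 hl
        have hll : l * l⁻¹ = 1 := mul_inv_cancel₀ hl.ne'
        have am : ∀ x y : ℝ, |x * y| ≤ (l * x ^ 2 + l⁻¹ * y ^ 2) / 2 := by
          intro x y
          have h3 : 0 ≤ l⁻¹ * (l * |x| - |y|) ^ 2 := by positivity
          have h4 : l⁻¹ * (l * |x| - |y|) ^ 2 = l * |x| ^ 2 - 2 * (|x| * |y|) + l⁻¹ * |y| ^ 2 := by
            field_simp
            ring
          rw [h4, sq_abs, sq_abs] at h3
          rw [abs_mul]; linarith
        have h2 := abs_sub (a * e) (b * c)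
        have := am a e
        have := am b c
        linarith
      calc (Real.pi - 2 * Real.pi * t) * (a * e - b * c) ≤ |(Real.pi - 2 * Real.pi * t) * (a * e - b * c)| := le_abs_self _
        _ = |Real.pi - 2 * Real.pi * t| * |a * e - b * c| := abs_mul _ _
        _ ≤ Real.pi * ((l * (a ^ 2 + b ^ 2) + l⁻¹ * (c ^ 2 + e ^ 2)) / 2) :=
            mul_le_mul h1 key (abs_nonneg _) hpi.le
        _ = _ := by ring
  · exact (by fun_prop : Continuous fun t : ℝ => l * ((∑ n ∈ U, f n * Real.cos (2 * Real.pi * n * t)) ^ 2 +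
        (∑ n ∈ U, f n * Real.sin (2 * Real.pi * n * t)) ^ 2)).intervalIntegrable _ _
  · exact (by fun_prop : Continuous fun t : ℝ => l⁻¹ * ((∑ n ∈ U, g n * Real.cos (2 * Real.pi * n * t)) ^ 2 +
        (∑ n ∈ U, g n * Real.sin (2 * Real.pi * n * t)) ^ 2)).intervalIntegrable _ _

theorem hilbertIneq : HilbertIneq := by
  intro U f g
  have hf0 : 0 ≤ ∑ n ∈ U, f n ^ 2 := Finset.sum_nonneg fun n _ => sq_nonneg _
  have hg0 : 0 ≤ ∑ n ∈ U, g n ^ 2 := Finset.sum_nonneg fun n _ => sq_nonneg _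
  set A := Real.sqrt (∑ n ∈ U, f n ^ 2) with hA
  set B := Real.sqrt (∑ n ∈ U, g n ^ 2) with hB
  have hA0 : 0 ≤ A := Real.sqrt_nonneg _
  have hB0 : 0 ≤ B := Real.sqrt_nonneg _
  have hA2 : ∑ n ∈ U, f n ^ 2 = A ^ 2 := (Real.sq_sqrt hf0).symm
  have hB2 : ∑ n ∈ U, g n ^ 2 = B ^ 2 := (Real.sq_sqrt hg0).symm
  rcases hA0.eq_or_lt with hz | hAp
  · have h1 : ∑ n ∈ U, f n ^ 2 = 0 := by rw [hA2, ← hz]; norm_num
    have h2 := (Finset.sum_eq_zero_iff_of_nonneg (fun n _ => sq_nonneg (f n))).1 h1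
    have h3 : ∑ n ∈ U, ∑ m ∈ U, f n * g m * ((m - n : ℤ) : ℝ)⁻¹ = 0 := by
      refine Finset.sum_eq_zero fun n hn => Finset.sum_eq_zero fun m _ => ?_
      have := h2 n hn
      rw [pow_eq_zero_iff (two_ne_zero)] at this
      rw [this]; ring
    rw [h3, abs_zero]; positivity
  rcases hB0.eq_or_lt with hz | hBp
  · have h1 : ∑ n ∈ U, g n ^ 2 = 0 := by rw [hB2, ← hz]; norm_num
    have h2 := (Finset.sum_eq_zero_iff_of_nonneg (fun n _ => sq_nonneg (g n))).1 h1
    have h3 : ∑ n ∈ U, ∑ m ∈ U, f n * g m * ((m - n : ℤ) : ℝ)⁻¹ = 0 := by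
      refine Finset.sum_eq_zero fun n hn => Finset.sum_eq_zero fun m hm => ?_
      have := h2 m hm
      rw [pow_eq_zero_iff (two_ne_zero)] at this
      rw [this]; ring
    rw [h3, abs_zero]; positivity
  have hl : 0 < B / A := div_pos hBp hAp
  have e : Real.pi / 2 * (B / A * A ^ 2 + (B / A)⁻¹ * B ^ 2) = Real.pi * (A * B) := by
    field_simp
    ring
  have hpi4 : Real.pi ≤ 4 := Real.pi_le_four
  have hAB : 0 < A * B := mul_pos hAp hBp
  rw [abs_le]
  constructor
  · have h1 := form_le U (fun n => -f n) g hl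
    have e2 : ∑ n ∈ U, ∑ m ∈ U, -f n * g m * ((m - n : ℤ) : ℝ)⁻¹ = -∑ n ∈ U, ∑ m ∈ U, f n * g m * ((m - n : ℤ) : ℝ)⁻¹ := by
      rw [← Finset.sum_neg_distrib]
      refine Finset.sum_congr rfl fun n _ => ?_
      rw [← Finset.sum_neg_distrib]
      refine Finset.sum_congr rfl fun m _ => ?_
      ring
    simp only [neg_sq] at h1
    rw [e2, hA2, hB2, e] at h1
    nlinarith
  · have h1 := form_le U f g hl
    rw [hA2, hB2, e] at h1
    nlinarith

end Pool.Agent.V8H55.AP
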