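import Pool.Agent.V8H55.AP.Stm

/-!
# From the bilinear form to the operator
-/

set_option autoImplicit false

open Finset

namespace Pool.Agent.V8H55.AP

theorem dop_of (h : DForm) : DOp := by
  intro p K hp hK
  have hp0 : 0 < p := by linarith
  have hp1 : 0 < p - 1 := by linarith
  have hq0 : 0 < 1 - 1 / p := by
    have : 1 / p < 1 := by rw [div_lt_one hp0]; exact hp
    linarith
  obtain ⟨C, hC, h⟩ := h p K hp hK
  refine ⟨(4 * C) ^ p, by positivity, ?_⟩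
  intro w hw hA U f
  have hq : 0 < p / (p - 1) := div_pos hp0 hp1
  set x : ℤ → ℝ := fun m => ∑ n ∈ U, f n * ((m - n : ℤ) : ℝ)⁻¹ with hx
  set fp : ℤ → ℝ := fun n => max (f n) 0 with hfp
  set fm : ℤ → ℝ := fun n => max (-f n) 0 with hfm
  set gp : ℤ → ℝ := fun m => if 0 ≤ x m then |x m| ^ (p - 1) * w m else 0 with hgp
  set gm : ℤ → ℝ := fun m => if 0 ≤ x m then 0 else |x m| ^ (p - 1) * w m with hgm
  set X := ∑ m ∈ U, |x m| ^ p * w m with hX
  set A := ∑ n ∈ U, |f n| ^ p * w n with hAA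
  have hX0 : 0 ≤ X := Finset.sum_nonneg fun m _ => mul_nonneg (Real.rpow_nonneg (abs_nonneg _) _) (hw m).le
  have hA0 : 0 ≤ A := Finset.sum_nonneg fun m _ => mul_nonneg (Real.rpow_nonneg (abs_nonneg _) _) (hw m).le
  have hfp0 : ∀ n, 0 ≤ fp n := fun n => le_max_right _ _
  have hfm0 : ∀ n, 0 ≤ fm n := fun n => le_max_right _ _
  have hgp0 : ∀ n, 0 ≤ gp n := fun n => by
    rw [hgp]; simp only
    split_ifs; exacts [mul_nonneg (Real.rpow_nonneg (abs_nonneg _) _) (hw n).le, le_rfl]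
  have hgm0 : ∀ n, 0 ≤ gm n := fun n => by
    rw [hgm]; simp only
    split_ifs; exacts [le_rfl, mul_nonneg (Real.rpow_nonneg (abs_nonneg _) _) (hw n).le]
  have hf : ∀ n, f n = fp n - fm n := fun n => by
    rw [hfp, hfm]; simp only
    rcases le_total 0 (f n) with h1 | h1
    · rw [max_eq_left h1, max_eq_right (by linarith)]; ring
    · rw [max_eq_right h1, max_eq_left (by linarith)]; ring
  have hg : ∀ m, x m * (gp m - gm m) = |x m| ^ p * w m := fun m => by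
    rw [hgp, hgm]; simp only
    have e : |x m| ^ p = |x m| * |x m| ^ (p - 1) := by
      rcases eq_or_ne (x m) 0 with h0 | h0
      · rw [h0, abs_zero, Real.zero_rpow hp0.ne', zero_mul]
      · have : 0 < |x m| := abs_pos.2 h0
        nth_rewrite 2 [← Real.rpow_one (|x m|)]
        rw [← Real.rpow_add this]; congr 1; ring
    split_ifs with h1
    · rw [e]; nth_rewrite 1 [← abs_of_nonneg h1]; ring
    · rw [e]
      have : x m = -|x m| := by rw [abs_of_neg (not_le.1 h1)]; ring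
      nth_rewrite 1 [this]; ring
  have hXe : X = (∑ n ∈ U, ∑ m ∈ U, fp n * gp m * ((m - n : ℤ) : ℝ)⁻¹) - (∑ n ∈ U, ∑ m ∈ U, fp n * gm m * ((m - n : ℤ) : ℝ)⁻¹)
      - (∑ n ∈ U, ∑ m ∈ U, fm n * gp m * ((m - n : ℤ) : ℝ)⁻¹) + ∑ n ∈ U, ∑ m ∈ U, fm n * gm m * ((m - n : ℤ) : ℝ)⁻¹ := by
    rw [← Finset.sum_sub_distrib, ← Finset.sum_sub_distrib, ← Finset.sum_add_distrib]
    have e1 : X = ∑ m ∈ U, ∑ n ∈ U, f n * ((m - n : ℤ) : ℝ)⁻¹ * (gp m - gm m) := by
      rw [hX]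
      refine Finset.sum_congr rfl fun m _ => ?_
      rw [← hg m, hx, Finset.sum_mul]
    rw [e1, Finset.sum_comm]
    refine Finset.sum_congr rfl fun n _ => ?_
    rw [← Finset.sum_sub_distrib, ← Finset.sum_sub_distrib, ← Finset.sum_add_distrib]
    refine Finset.sum_congr rfl fun m _ => ?_
    rw [hf n]; ring
  have hnf : ∀ u : ℤ → ℝ, (∀ n, 0 ≤ u n) → (∀ n, u n ≤ |f n|) → (∑ n ∈ U, u n ^ p * w n) ^ (1 / p) ≤ A ^ (1 / p) := by
    intro u hu hu'
    apply Real.rpow_le_rpow (Finset.sum_nonneg fun m _ => mul_nonneg (Real.rpow_nonneg (hu m) _) (hw m).le) _ (by positivity)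
    refine Finset.sum_le_sum fun n _ => ?_
    exact mul_le_mul_of_nonneg_right (Real.rpow_le_rpow (hu n) (hu' n) hp0.le) (hw n).le
  have hng : ∀ v : ℤ → ℝ, (∀ n, 0 ≤ v n) → (∀ n, v n ≤ |x n| ^ (p - 1) * w n) →
      (∑ n ∈ U, v n ^ (p / (p - 1)) * w n ^ (-(1 / (p - 1)))) ^ (1 - 1 / p) ≤ X ^ (1 - 1 / p) := by
    intro v hv hv'
    apply Real.rpow_le_rpow (Finset.sum_nonneg fun m _ => mul_nonneg (Real.rpow_nonneg (hv m) _) (Real.rpow_nonneg (hw m).le _)) _ hq0.le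
    refine Finset.sum_le_sum fun n _ => ?_
    calc v n ^ (p / (p - 1)) * w n ^ (-(1 / (p - 1)))
        ≤ (|x n| ^ (p - 1) * w n) ^ (p / (p - 1)) * w n ^ (-(1 / (p - 1))) :=
          mul_le_mul_of_nonneg_right (Real.rpow_le_rpow (hv n) (hv' n) hq.le) (Real.rpow_nonneg (hw n).le _)
      _ = |x n| ^ p * w n := by
          rw [Real.mul_rpow (Real.rpow_nonneg (abs_nonneg _) _) (hw n).le, ← Real.rpow_mul (abs_nonneg _), mul_assoc,
            ← Real.rpow_add (hw n)]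
          have e1 : (p - 1) * (p / (p - 1)) = p := by field_simp
          have e2 : p / (p - 1) + -(1 / (p - 1)) = 1 := by field_simp; ring
          rw [e1, e2, Real.rpow_one]
  have hfp1 : ∀ n, fp n ≤ |f n| := fun n => max_le (le_abs_self _) (abs_nonneg _)
  have hfm1 : ∀ n, fm n ≤ |f n| := fun n => max_le (neg_le_abs _) (abs_nonneg _)
  have hgp1 : ∀ n, gp n ≤ |x n| ^ (p - 1) * w n := fun n => by
    rw [hgp]; simp only
    split_ifs; exacts [le_rfl, mul_nonneg (Real.rpow_nonneg (abs_nonneg _) _) (hw n).le]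
  have hgm1 : ∀ n, gm n ≤ |x n| ^ (p - 1) * w n := fun n => by
    rw [hgm]; simp only
    split_ifs; exacts [mul_nonneg (Real.rpow_nonneg (abs_nonneg _) _) (hw n).le, le_rfl]
  have key : ∀ u v : ℤ → ℝ, (∀ n, 0 ≤ u n) → (∀ n, u n ≤ |f n|) → (∀ n, 0 ≤ v n) → (∀ n, v n ≤ |x n| ^ (p - 1) * w n) →
      |∑ n ∈ U, ∑ m ∈ U, u n * v m * ((m - n : ℤ) : ℝ)⁻¹| ≤ C * A ^ (1 / p) * X ^ (1 - 1 / p) := by
    intro u v hu hu' hv hv'
    refine (h w hw hA U u v hu hv).trans ?_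
    have h1 := hnf u hu hu'
    have h2 := hng v hv hv'
    apply mul_le_mul _ h2 (Real.rpow_nonneg (Finset.sum_nonneg fun m _ => mul_nonneg (Real.rpow_nonneg (hv m) _) (Real.rpow_nonneg (hw m).le _)) _)
      (mul_nonneg hC (Real.rpow_nonneg hA0 _))
    exact mul_le_mul_of_nonneg_left h1 hC
  have k1 := (abs_le.1 (key fp gp hfp0 hfp1 hgp0 hgp1)).2
  have k2 := (abs_le.1 (key fp gm hfp0 hfp1 hgm0 hgm1)).1
  have k3 := (abs_le.1 (key fm gp hfm0 hfm1 hgp0 hgp1)).1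
  have k4 := (abs_le.1 (key fm gm hfm0 hfm1 hgm0 hgm1)).2
  have hfin : X ≤ 4 * C * A ^ (1 / p) * X ^ (1 - 1 / p) := by linarith
  rcases hX0.eq_or_lt with hz | hXp
  · rw [← hz]; positivity
  · have e1 : X = X ^ (1 / p) * X ^ (1 - 1 / p) := by rw [← Real.rpow_add hXp]; simp
    have h1 : X ^ (1 / p) ≤ 4 * C * A ^ (1 / p) := by
      have h2 : X ^ (1 / p) * X ^ (1 - 1 / p) ≤ (4 * C * A ^ (1 / p)) * X ^ (1 - 1 / p) := by rw [← e1]; exact hfin
      exact le_of_mul_le_mul_right h2 (Real.rpow_pos_of_pos hXp _)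
    have h2 := Real.rpow_le_rpow (Real.rpow_nonneg hX0 _) h1 hp0.le
    rw [← Real.rpow_mul hX0, one_div_mul_cancel hp0.ne', Real.rpow_one, Real.mul_rpow (by positivity) (Real.rpow_nonneg hA0 _),
      ← Real.rpow_mul hA0, one_div_mul_cancel hp0.ne', Real.rpow_one] at h2
    exact h2

end Pool.Agent.V8H55.AP
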