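import Pool.Agent.V8H55.AP.Ker

/-!
# The weighted bound for sparse forms
-/

set_option autoImplicit false

open Finset

namespace Pool.Agent.V8H55.AP

section

variable {p q : ℝ}

theorem wsig {p x : ℝ} (hp : 1 < p) (hx : 0 < x) : x ^ (1 / p) * (x ^ (-(1 / (p - 1)))) ^ (1 - 1 / p) = 1 := by
  have hp0 : p ≠ 0 := by linarith
  have hp1 : p - 1 ≠ 0 := by linarith
  rw [← Real.rpow_mul hx.le, ← Real.rpow_add hx]
  have : 1 / p + -(1 / (p - 1)) * (1 - 1 / p) = 0 := by field_simp; ring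
  rw [this, Real.rpow_zero]

theorem holder_card (hp : 1 < p) {w : ℤ → ℝ} (hw : ∀ n, 0 < w n) (E : Finset ℤ) :
    ((#E : ℕ) : ℝ) ^ p ≤ (∑ n ∈ E, w n) * (∑ n ∈ E, w n ^ (-(1 / (p - 1)))) ^ (p - 1) := by
  have hp0 : 0 < p := by linarith
  have hp1 : 0 < p - 1 := by linarith
  have hpq : p.HolderConjugate (Real.conjExponent p) := Real.HolderConjugate.conjExponent hp
  have hq : 1 / Real.conjExponent p = 1 - 1 / p := by
    unfold Real.conjExponent; field_simp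
  have hq' : (1 - 1 / p) * Real.conjExponent p = 1 := by
    unfold Real.conjExponent; field_simp
  have hsig : ∀ n, 0 < w n ^ (-(1 / (p - 1))) := fun n => Real.rpow_pos_of_pos (hw n) _
  have h1 := Real.inner_le_Lp_mul_Lq_of_nonneg (s := E) (f := fun n => w n ^ (1 / p))
    (g := fun n => (w n ^ (-(1 / (p - 1)))) ^ (1 - 1 / p)) hpq
    (fun n _ => (Real.rpow_pos_of_pos (hw n) _).le) (fun n _ => (Real.rpow_pos_of_pos (hsig n) _).le)
  have e1 : ∀ n ∈ E, w n ^ (1 / p) * (w n ^ (-(1 / (p - 1)))) ^ (1 - 1 / p) = 1 := fun n _ => wsig hp (hw n)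
  have e2 : ∀ n ∈ E, (w n ^ (1 / p)) ^ p = w n := fun n _ => by
    rw [← Real.rpow_mul (hw n).le, one_div_mul_cancel hp0.ne', Real.rpow_one]
  have e3 : ∀ n ∈ E, ((w n ^ (-(1 / (p - 1)))) ^ (1 - 1 / p)) ^ Real.conjExponent p = w n ^ (-(1 / (p - 1))) := fun n _ => by
    rw [← Real.rpow_mul (hsig n).le, hq', Real.rpow_one]
  rw [Finset.sum_congr rfl e1, Finset.sum_congr rfl e2, Finset.sum_congr rfl e3, hq, Finset.sum_const,
    nsmul_eq_mul, mul_one] at h1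
  have hW : 0 ≤ ∑ n ∈ E, w n := Finset.sum_nonneg fun n _ => (hw n).le
  have hS : 0 ≤ ∑ n ∈ E, w n ^ (-(1 / (p - 1))) := Finset.sum_nonneg fun n _ => (hsig n).le
  calc ((#E : ℕ) : ℝ) ^ p ≤ ((∑ n ∈ E, w n) ^ (1 / p) * (∑ n ∈ E, w n ^ (-(1 / (p - 1)))) ^ (1 - 1 / p)) ^ p :=
        Real.rpow_le_rpow (by positivity) h1 hp0.le
    _ = (∑ n ∈ E, w n) * (∑ n ∈ E, w n ^ (-(1 / (p - 1)))) ^ (p - 1) := by
        rw [Real.mul_rpow (Real.rpow_nonneg hW _) (Real.rpow_nonneg hS _), ← Real.rpow_mul hW, ← Real.rpow_mul hS,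
          one_div_mul_cancel hp0.ne', Real.rpow_one]
        have : (1 - 1 / p) * p = p - 1 := by field_simp
        rw [this]

/-- the local comparison -/
theorem local_bound {K : ℝ} (hp : 1 < p) (hK : 0 < K) {w : ℤ → ℝ} (hw : ∀ n, 0 < w n) (hA : DAp p K w)
    (s : ℕ) (j : ℤ) {E : Finset ℤ} (hE : E ⊆ I s j) (hc : 2 ^ s ≤ 2 * #E) :
    (∑ n ∈ J s j, w n ^ (-(1 / (p - 1)))) * (∑ n ∈ J s j, w n) ≤
      (3 * K ^ (1 / p) * (6 ^ p * K) ^ (1 - 1 / p) * ((6 ^ p * K) ^ (1 / (p - 1))) ^ (1 / p)) *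
        (2 ^ s * ((∑ n ∈ E, w n ^ (-(1 / (p - 1)))) ^ (1 / p) * (∑ n ∈ E, w n) ^ (1 - 1 / p))) := by
  have hp0 : 0 < p := by linarith
  have hp1 : 0 < p - 1 := by linarith
  have hq0 : 0 < 1 - 1 / p := by
    have : 1 / p < 1 := by rw [div_lt_one hp0]; exact hp
    linarith
  set σ : ℤ → ℝ := fun n => w n ^ (-(1 / (p - 1))) with hσ
  have hsig : ∀ n, 0 < σ n := fun n => Real.rpow_pos_of_pos (hw n) _
  change (∑ n ∈ J s j, σ n) * (∑ n ∈ J s j, w n) ≤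
      (3 * K ^ (1 / p) * (6 ^ p * K) ^ (1 - 1 / p) * ((6 ^ p * K) ^ (1 / (p - 1))) ^ (1 / p)) *
        (2 ^ s * ((∑ n ∈ E, σ n) ^ (1 / p) * (∑ n ∈ E, w n) ^ (1 - 1 / p)))
  set WJ := ∑ n ∈ J s j, w n with hWJ
  set SJ := ∑ n ∈ J s j, σ n with hSJ
  set WE := ∑ n ∈ E, w n with hWE
  set SE := ∑ n ∈ E, σ n with hSE
  have hEJ : E ⊆ J s j := hE.trans (I_sub_J s j)
  have hEn : E.Nonempty := by
    rw [← Finset.card_pos]
    have : 0 < 2 ^ s := by positivity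
    omega
  have hWE0 : 0 < WE := Finset.sum_pos (fun n _ => hw n) hEn
  have hSE0 : 0 < SE := Finset.sum_pos (fun n _ => hsig n) hEn
  have hWEJ : WE ≤ WJ := Finset.sum_le_sum_of_subset_of_nonneg hEJ fun n _ _ => (hw n).le
  have hSEJ : SE ≤ SJ := Finset.sum_le_sum_of_subset_of_nonneg hEJ fun n _ _ => (hsig n).le
  have hWJ0 : 0 < WJ := hWE0.trans_le hWEJ
  have hSJ0 : 0 < SJ := hSE0.trans_le hSEJ
  -- A_p on J
  have hb : WJ * SJ ^ (p - 1) ≤ K * (3 * 2 ^ s) ^ p := by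
    have h1 := hA ((j - 1) * 2 ^ s) (3 * 2 ^ s)
    have h2 : Finset.Ico ((j - 1) * 2 ^ s) ((j - 1) * 2 ^ s + ((3 * 2 ^ s : ℕ) : ℤ)) = J s j := by
      unfold J
      congr 1
      push_cast; ring
    rw [h2] at h1
    push_cast at h1
    exact h1
  have ha : ((#E : ℕ) : ℝ) ^ p ≤ WE * SE ^ (p - 1) := holder_card hp hw E
  have hcard : (3 * 2 ^ s : ℝ) ≤ 6 * #E := by
    have : (2 : ℝ) ^ s ≤ 2 * #E := by exact_mod_cast hc
    linarith
  have hc1 : WJ * SJ ^ (p - 1) ≤ 6 ^ p * K * (WE * SE ^ (p - 1)) := by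
    calc WJ * SJ ^ (p - 1) ≤ K * (3 * 2 ^ s) ^ p := hb
      _ ≤ K * (6 * #E) ^ p := by
          apply mul_le_mul_of_nonneg_left _ hK.le
          exact Real.rpow_le_rpow (by positivity) hcard hp0.le
      _ = 6 ^ p * K * ((#E : ℕ) : ℝ) ^ p := by
          rw [Real.mul_rpow (by norm_num) (by positivity)]; ring
      _ ≤ 6 ^ p * K * (WE * SE ^ (p - 1)) := mul_le_mul_of_nonneg_left ha (by positivity)
  have hSJp : 0 < SJ ^ (p - 1) := Real.rpow_pos_of_pos hSJ0 _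
  have hSEp : SE ^ (p - 1) ≤ SJ ^ (p - 1) := Real.rpow_le_rpow hSE0.le hSEJ hp1.le
  have hw1 : WJ ≤ 6 ^ p * K * WE := by
    have : WJ * SJ ^ (p - 1) ≤ (6 ^ p * K * WE) * SJ ^ (p - 1) := by
      refine hc1.trans ?_
      rw [← mul_assoc]
      exact mul_le_mul_of_nonneg_left hSEp (by positivity)
    exact le_of_mul_le_mul_right this hSJp
  have hs1 : SJ ≤ (6 ^ p * K) ^ (1 / (p - 1)) * SE := by
    have h1 : SJ ^ (p - 1) ≤ 6 ^ p * K * SE ^ (p - 1) := by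
      have : WJ * SJ ^ (p - 1) ≤ WJ * (6 ^ p * K * SE ^ (p - 1)) := by
        refine hc1.trans ?_
        have h2 : 6 ^ p * K * (WE * SE ^ (p - 1)) = WE * (6 ^ p * K * SE ^ (p - 1)) := by ring
        rw [h2]
        exact mul_le_mul_of_nonneg_right hWEJ (by positivity)
      exact le_of_mul_le_mul_left this hWJ0
    have h2 := Real.rpow_le_rpow hSJp.le h1 (by positivity : 0 ≤ 1 / (p - 1))
    rw [← Real.rpow_mul hSJ0.le, mul_one_div_cancel hp1.ne', Real.rpow_one,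
      Real.mul_rpow (by positivity) (Real.rpow_nonneg hSE0.le _), ← Real.rpow_mul hSE0.le,
      mul_one_div_cancel hp1.ne', Real.rpow_one] at h2
    exact h2
  have hprod : WJ ^ (1 / p) * SJ ^ (1 - 1 / p) ≤ K ^ (1 / p) * (3 * 2 ^ s) := by
    have h1 := Real.rpow_le_rpow (by positivity) hb (by positivity : 0 ≤ 1 / p)
    rw [Real.mul_rpow hWJ0.le hSJp.le, ← Real.rpow_mul hSJ0.le, Real.mul_rpow hK.le (by positivity),
      ← Real.rpow_mul (by positivity), mul_one_div_cancel hp0.ne', Real.rpow_one] at h1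
    have : (p - 1) * (1 / p) = 1 - 1 / p := by field_simp
    rw [this] at h1
    exact h1
  have hsplit : SJ * WJ = (WJ ^ (1 / p) * SJ ^ (1 - 1 / p)) * (WJ ^ (1 - 1 / p) * SJ ^ (1 / p)) := by
    have e1 : WJ ^ (1 / p) * WJ ^ (1 - 1 / p) = WJ := by
      rw [← Real.rpow_add hWJ0]; simp
    have e2 : SJ ^ (1 - 1 / p) * SJ ^ (1 / p) = SJ := by
      rw [← Real.rpow_add hSJ0]; simp
    calc SJ * WJ = (SJ ^ (1 - 1 / p) * SJ ^ (1 / p)) * (WJ ^ (1 / p) * WJ ^ (1 - 1 / p)) := by rw [e1, e2]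
      _ = _ := by ring
  rw [hsplit]
  have h3 : WJ ^ (1 - 1 / p) ≤ (6 ^ p * K) ^ (1 - 1 / p) * WE ^ (1 - 1 / p) := by
    rw [← Real.mul_rpow (by positivity) hWE0.le]
    exact Real.rpow_le_rpow hWJ0.le hw1 hq0.le
  have h4 : SJ ^ (1 / p) ≤ ((6 ^ p * K) ^ (1 / (p - 1))) ^ (1 / p) * SE ^ (1 / p) := by
    rw [← Real.mul_rpow (by positivity) hSE0.le]
    exact Real.rpow_le_rpow hSJ0.le hs1 (by positivity)
  calc (WJ ^ (1 / p) * SJ ^ (1 - 1 / p)) * (WJ ^ (1 - 1 / p) * SJ ^ (1 / p))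
      ≤ (K ^ (1 / p) * (3 * 2 ^ s)) * (((6 ^ p * K) ^ (1 - 1 / p) * WE ^ (1 - 1 / p)) *
          (((6 ^ p * K) ^ (1 / (p - 1))) ^ (1 / p) * SE ^ (1 / p))) := by
        gcongr
    _ = _ := by ring

end

theorem wsparse (h : Carl) : WSparse := by
  intro p K hp hK
  have hp0 : 0 < p := by linarith
  have hp1 : 0 < p - 1 := by linarith
  have hq0 : 0 < 1 - 1 / p := by
    have : 1 / p < 1 := by rw [div_lt_one hp0]; exact hp
    linarith
  set q : ℝ := p / (p - 1) with hq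
  have hq1 : 1 < q := by rw [hq, lt_div_iff₀ hp1]; linarith
  have hpq : p.HolderConjugate q := Real.HolderConjugate.conjExponent hp
  have hqinv : 1 / q = 1 - 1 / p := by rw [hq]; field_simp
  obtain ⟨C1, hC1, h1⟩ := h p hp
  obtain ⟨C2, hC2, h2⟩ := h q hq1
  set C0 := 3 * K ^ (1 / p) * (6 ^ p * K) ^ (1 - 1 / p) * ((6 ^ p * K) ^ (1 / (p - 1))) ^ (1 / p) with hC0
  have hC0' : 0 ≤ C0 := by positivity
  refine ⟨C0 * (C1 ^ (1 / p) * C2 ^ (1 - 1 / p)), by positivity, ?_⟩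
  intro w hw hA f g hf hg F E hS U hfU hgU
  set σ : ℤ → ℝ := fun n => w n ^ (-(1 / (p - 1))) with hσ
  have hsig : ∀ n, 0 < σ n := fun n => Real.rpow_pos_of_pos (hw n) _
  set a : ℕ × ℤ → ℝ := fun k => (∑ n ∈ J k.1 k.2, f n / σ n * σ n) / ∑ n ∈ J k.1 k.2, σ n with ha
  set b : ℕ × ℤ → ℝ := fun k => (∑ n ∈ J k.1 k.2, g n / w n * w n) / ∑ n ∈ J k.1 k.2, w n with hb
  set SE : ℕ × ℤ → ℝ := fun k => ∑ n ∈ E k, σ n with hSE
  set WE : ℕ × ℤ → ℝ := fun k => ∑ n ∈ E k, w n with hWE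
  have hJn : ∀ k : ℕ × ℤ, (J k.1 k.2).Nonempty := fun k => by
    rw [← Finset.card_pos, card_J]; positivity
  have hSJ0 : ∀ k : ℕ × ℤ, 0 < ∑ n ∈ J k.1 k.2, σ n := fun k => Finset.sum_pos (fun n _ => hsig n) (hJn k)
  have hWJ0 : ∀ k : ℕ × ℤ, 0 < ∑ n ∈ J k.1 k.2, w n := fun k => Finset.sum_pos (fun n _ => hw n) (hJn k)
  have ha0 : ∀ k, 0 ≤ a k := fun k => by
    rw [ha]
    exact div_nonneg (Finset.sum_nonneg fun n _ => mul_nonneg (div_nonneg (hf n) (hsig n).le) (hsig n).le) (hSJ0 k).le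
  have hb0 : ∀ k, 0 ≤ b k := fun k => by
    rw [hb]
    exact div_nonneg (Finset.sum_nonneg fun n _ => mul_nonneg (div_nonneg (hg n) (hw n).le) (hw n).le) (hWJ0 k).le
  have hSE0 : ∀ k, 0 ≤ SE k := fun k => Finset.sum_nonneg fun n _ => (hsig n).le
  have hWE0 : ∀ k, 0 ≤ WE k := fun k => Finset.sum_nonneg fun n _ => (hw n).le
  have hfa : ∀ k : ℕ × ℤ, ∑ n ∈ J k.1 k.2, f n = a k * ∑ n ∈ J k.1 k.2, σ n := fun k => by
    rw [ha]
    simp only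
    rw [div_mul_cancel₀ _ (hSJ0 k).ne']
    refine Finset.sum_congr rfl fun n _ => ?_
    rw [div_mul_cancel₀ _ (hsig n).ne']
  have hgb : ∀ k : ℕ × ℤ, ∑ n ∈ J k.1 k.2, g n = b k * ∑ n ∈ J k.1 k.2, w n := fun k => by
    rw [hb]
    simp only
    rw [div_mul_cancel₀ _ (hWJ0 k).ne']
    refine Finset.sum_congr rfl fun n _ => ?_
    rw [div_mul_cancel₀ _ (hw n).ne']
  have hterm : ∀ k ∈ F, (∑ n ∈ J k.1 k.2, f n) * (∑ n ∈ J k.1 k.2, g n) / 2 ^ k.1 ≤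
      C0 * ((a k * SE k ^ (1 / p)) * (b k * WE k ^ (1 - 1 / p))) := by
    intro k hk
    have hl := local_bound hp hK hw hA k.1 k.2 (hS.sub k hk) (hS.card k hk)
    rw [hfa k, hgb k, div_le_iff₀ (by positivity)]
    have e1 : a k * (∑ n ∈ J k.1 k.2, σ n) * (b k * ∑ n ∈ J k.1 k.2, w n) =
        (a k * b k) * ((∑ n ∈ J k.1 k.2, σ n) * ∑ n ∈ J k.1 k.2, w n) := by ring
    have e2 : C0 * (a k * SE k ^ (1 / p) * (b k * WE k ^ (1 - 1 / p))) * 2 ^ k.1 =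
        (a k * b k) * (C0 * (2 ^ k.1 * (SE k ^ (1 / p) * WE k ^ (1 - 1 / p)))) := by ring
    rw [e1, e2]
    exact mul_le_mul_of_nonneg_left hl (mul_nonneg (ha0 k) (hb0 k))
  have hH := Real.inner_le_Lp_mul_Lq_of_nonneg (s := F) (f := fun k => a k * SE k ^ (1 / p))
    (g := fun k => b k * WE k ^ (1 - 1 / p)) hpq
    (fun k _ => mul_nonneg (ha0 k) (Real.rpow_nonneg (hSE0 k) _))
    (fun k _ => mul_nonneg (hb0 k) (Real.rpow_nonneg (hWE0 k) _))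
  have e3 : ∀ k ∈ F, (a k * SE k ^ (1 / p)) ^ p = a k ^ p * SE k := fun k _ => by
    rw [Real.mul_rpow (ha0 k) (Real.rpow_nonneg (hSE0 k) _), ← Real.rpow_mul (hSE0 k),
      one_div_mul_cancel hp0.ne', Real.rpow_one]
  have e4 : ∀ k ∈ F, (b k * WE k ^ (1 - 1 / p)) ^ q = b k ^ q * WE k := fun k _ => by
    rw [Real.mul_rpow (hb0 k) (Real.rpow_nonneg (hWE0 k) _), ← Real.rpow_mul (hWE0 k), ← hqinv,
      one_div_mul_cancel (by linarith), Real.rpow_one]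
  rw [Finset.sum_congr rfl e3, Finset.sum_congr rfl e4, hqinv] at hH
  have hc1 := h1 σ (fun n => f n / σ n) hsig (fun n => div_nonneg (hf n) (hsig n).le) F E hS U
    (fun n hn => by rw [hfU n hn, zero_div])
  have hc2 := h2 w (fun n => g n / w n) hw (fun n => div_nonneg (hg n) (hw n).le) F E hS U
    (fun n hn => by rw [hgU n hn, zero_div])
  have e5 : ∀ n ∈ U, (f n / σ n) ^ p * σ n = f n ^ p * w n := fun n _ => by
    rw [Real.div_rpow (hf n) (hsig n).le, div_mul_eq_mul_div, mul_div_assoc]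
    congr 1
    rw [hσ]
    simp only
    rw [← Real.rpow_mul (hw n).le, ← Real.rpow_sub (hw n)]
    have : -(1 / (p - 1)) - -(1 / (p - 1)) * p = 1 := by field_simp; ring
    rw [this, Real.rpow_one]
  have e6 : ∀ n ∈ U, (g n / w n) ^ q * w n = g n ^ q * w n ^ (-(1 / (p - 1))) := fun n _ => by
    rw [Real.div_rpow (hg n) (hw n).le, div_mul_eq_mul_div, mul_div_assoc]
    congr 1
    nth_rewrite 1 [← Real.rpow_one (w n)]
    rw [← Real.rpow_sub (hw n)]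
    congr 1
    rw [hq]; field_simp; ring
  rw [Finset.sum_congr rfl e5] at hc1
  rw [Finset.sum_congr rfl e6] at hc2
  have hX0 : 0 ≤ ∑ n ∈ U, f n ^ p * w n := Finset.sum_nonneg fun n _ => mul_nonneg (Real.rpow_nonneg (hf n) _) (hw n).le
  have hY0 : 0 ≤ ∑ n ∈ U, g n ^ q * w n ^ (-(1 / (p - 1))) :=
    Finset.sum_nonneg fun n _ => mul_nonneg (Real.rpow_nonneg (hg n) _) (hsig n).le
  have hl1 : (∑ k ∈ F, a k ^ p * SE k) ^ (1 / p) ≤ C1 ^ (1 / p) * (∑ n ∈ U, f n ^ p * w n) ^ (1 / p) := by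
    rw [← Real.mul_rpow hC1 hX0]
    exact Real.rpow_le_rpow (Finset.sum_nonneg fun k _ => mul_nonneg (Real.rpow_nonneg (ha0 k) _) (hSE0 k)) hc1 (by positivity)
  have hl2 : (∑ k ∈ F, b k ^ q * WE k) ^ (1 - 1 / p) ≤ C2 ^ (1 - 1 / p) *
      (∑ n ∈ U, g n ^ q * w n ^ (-(1 / (p - 1)))) ^ (1 - 1 / p) := by
    rw [← Real.mul_rpow hC2 hY0]
    exact Real.rpow_le_rpow (Finset.sum_nonneg fun k _ => mul_nonneg (Real.rpow_nonneg (hb0 k) _) (hWE0 k)) hc2 hq0.le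
  calc ∑ k ∈ F, (∑ n ∈ J k.1 k.2, f n) * (∑ n ∈ J k.1 k.2, g n) / 2 ^ k.1
      ≤ ∑ k ∈ F, C0 * ((a k * SE k ^ (1 / p)) * (b k * WE k ^ (1 - 1 / p))) := Finset.sum_le_sum hterm
    _ = C0 * ∑ k ∈ F, (a k * SE k ^ (1 / p)) * (b k * WE k ^ (1 - 1 / p)) := by rw [Finset.mul_sum]
    _ ≤ C0 * ((∑ k ∈ F, a k ^ p * SE k) ^ (1 / p) * (∑ k ∈ F, b k ^ q * WE k) ^ (1 - 1 / p)) :=
        mul_le_mul_of_nonneg_left hH hC0'
    _ ≤ C0 * ((C1 ^ (1 / p) * (∑ n ∈ U, f n ^ p * w n) ^ (1 / p)) * (C2 ^ (1 - 1 / p) *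
          (∑ n ∈ U, g n ^ q * w n ^ (-(1 / (p - 1)))) ^ (1 - 1 / p))) := by
        apply mul_le_mul_of_nonneg_left _ hC0'
        exact mul_le_mul hl1 hl2 (Real.rpow_nonneg (Finset.sum_nonneg fun k _ => mul_nonneg (Real.rpow_nonneg (hb0 k) _) (hWE0 k)) _)
          (by positivity)
    _ = _ := by ring

end Pool.Agent.V8H55.AP
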