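import Pool.Agent.V8H55.HW.Defs

/-!
# A_p implies that the Hilbert transform is bounded: the parts

Discrete version: weights and functions on the integers, `1 / (m - n)` with `0⁻¹ = 0`.
-/

set_option autoImplicit false

open MeasureTheory Finset

namespace Pool.Agent.V8H55.AP

open Pool.Agent.V8H55.HW

/-- The dyadic interval of length `2^s`. -/
noncomputable def I (s : ℕ) (j : ℤ) : Finset ℤ := Finset.Ico (j * 2 ^ s) ((j + 1) * 2 ^ s)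

/-- Its triple. -/
noncomputable def J (s : ℕ) (j : ℤ) : Finset ℤ := Finset.Ico ((j - 1) * 2 ^ s) ((j + 2) * 2 ^ s)

/-- The truncated kernel. -/
noncomputable def T (s : ℕ) (k : ℤ) : ℝ := if |k| < 2 ^ s then (k : ℝ)⁻¹ - k / 4 ^ s else 0

/-- The truncated form. -/
noncomputable def Lam (f g : ℤ → ℝ) (s : ℕ) (j : ℤ) : ℝ :=
  ∑ n ∈ I s j, ∑ m ∈ J s j, f n * g m * T s (m - n)

/-- A sparse family. -/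
structure Sparse (F : Finset (ℕ × ℤ)) (E : ℕ × ℤ → Finset ℤ) : Prop where
  sub : ∀ k ∈ F, E k ⊆ I k.1 k.2
  card : ∀ k ∈ F, 2 ^ k.1 ≤ 2 * #(E k)
  disj : ∀ k ∈ F, ∀ k' ∈ F, k ≠ k' → Disjoint (E k) (E k')

/-- Hilbert's inequality. -/
def HilbertIneq : Prop := ∀ (U : Finset ℤ) (f g : ℤ → ℝ),
  |∑ n ∈ U, ∑ m ∈ U, f n * g m * ((m - n : ℤ) : ℝ)⁻¹| ≤
    4 * Real.sqrt (∑ n ∈ U, f n ^ 2) * Real.sqrt (∑ m ∈ U, g m ^ 2)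

/-- One step of the stopping argument. -/
def OneStep : Prop := ∃ C : ℝ, 0 ≤ C ∧ ∀ f g : ℤ → ℝ, (∀ n, 0 ≤ f n) → (∀ n, 0 ≤ g n) →
  ∀ (S : ℕ) (j : ℤ), ∃ st : Finset (ℕ × ℤ),
    (∀ k ∈ st, k.1 < S ∧ I k.1 k.2 ⊆ I S j) ∧
    (∀ k ∈ st, ∀ k' ∈ st, k ≠ k' → Disjoint (I k.1 k.2) (I k'.1 k'.2)) ∧
    2 * ∑ k ∈ st, 2 ^ k.1 ≤ 2 ^ S ∧
    |Lam f g S j - ∑ k ∈ st, Lam f g k.1 k.2| ≤
      C * ((∑ n ∈ J S j, f n) * (∑ n ∈ J S j, g n) / 2 ^ S)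

/-- Sparse domination of the truncated form. -/
def SparseDom : Prop := ∃ C : ℝ, 0 ≤ C ∧ ∀ f g : ℤ → ℝ, (∀ n, 0 ≤ f n) → (∀ n, 0 ≤ g n) →
  ∀ (S : ℕ) (j : ℤ), ∃ (F : Finset (ℕ × ℤ)) (E : ℕ × ℤ → Finset ℤ), Sparse F E ∧
    |Lam f g S j| ≤ C * ∑ k ∈ F, (∑ n ∈ J k.1 k.2, f n) * (∑ n ∈ J k.1 k.2, g n) / 2 ^ k.1

/-- The discrete class `A_p` with constant `K`. -/
def DAp (p K : ℝ) (w : ℤ → ℝ) : Prop := ∀ (a : ℤ) (n : ℕ),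
  (∑ i ∈ Finset.Ico a (a + n), w i) *
    (∑ i ∈ Finset.Ico a (a + n), w i ^ (-(1 / (p - 1)))) ^ (p - 1) ≤ K * (n : ℝ) ^ p

/-- Carleson embedding for sparse families. -/
def Carl : Prop := ∀ q : ℝ, 1 < q → ∃ C : ℝ, 0 ≤ C ∧ ∀ μ h : ℤ → ℝ, (∀ n, 0 < μ n) →
  (∀ n, 0 ≤ h n) → ∀ (F : Finset (ℕ × ℤ)) (E : ℕ × ℤ → Finset ℤ), Sparse F E →
  ∀ U : Finset ℤ, (∀ n ∉ U, h n = 0) →
    ∑ k ∈ F, ((∑ n ∈ J k.1 k.2, h n * μ n) / ∑ n ∈ J k.1 k.2, μ n) ^ q * ∑ n ∈ E k, μ n ≤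
      C * ∑ n ∈ U, h n ^ q * μ n

/-- The weighted bound for sparse forms. -/
def WSparse : Prop := ∀ p K : ℝ, 1 < p → 0 < K → ∃ C : ℝ, 0 ≤ C ∧ ∀ w : ℤ → ℝ,
  (∀ i, 0 < w i) → DAp p K w → ∀ f g : ℤ → ℝ, (∀ n, 0 ≤ f n) → (∀ n, 0 ≤ g n) →
  ∀ (F : Finset (ℕ × ℤ)) (E : ℕ × ℤ → Finset ℤ), Sparse F E →
  ∀ U : Finset ℤ, (∀ n ∉ U, f n = 0) → (∀ n ∉ U, g n = 0) →
    ∑ k ∈ F, (∑ n ∈ J k.1 k.2, f n) * (∑ n ∈ J k.1 k.2, g n) / 2 ^ k.1 ≤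
      C * (∑ n ∈ U, f n ^ p * w n) ^ (1 / p) *
        (∑ n ∈ U, g n ^ (p / (p - 1)) * w n ^ (-(1 / (p - 1)))) ^ (1 - 1 / p)

/-- The weighted bound for the bilinear form. -/
def DForm : Prop := ∀ p K : ℝ, 1 < p → 0 < K → ∃ C : ℝ, 0 ≤ C ∧ ∀ w : ℤ → ℝ,
  (∀ i, 0 < w i) → DAp p K w → ∀ (U : Finset ℤ) (f g : ℤ → ℝ), (∀ n, 0 ≤ f n) → (∀ n, 0 ≤ g n) →
    |∑ n ∈ U, ∑ m ∈ U, f n * g m * ((m - n : ℤ) : ℝ)⁻¹| ≤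
      C * (∑ n ∈ U, f n ^ p * w n) ^ (1 / p) *
        (∑ n ∈ U, g n ^ (p / (p - 1)) * w n ^ (-(1 / (p - 1)))) ^ (1 - 1 / p)

/-- The weighted bound for the discrete Hilbert transform. -/
def DOp : Prop := ∀ p K : ℝ, 1 < p → 0 < K → ∃ C : ℝ, 0 ≤ C ∧ ∀ w : ℤ → ℝ,
  (∀ i, 0 < w i) → DAp p K w → ∀ (U : Finset ℤ) (f : ℤ → ℝ),
    ∑ m ∈ U, |∑ n ∈ U, f n * ((m - n : ℤ) : ℝ)⁻¹| ^ p * w m ≤ C * ∑ n ∈ U, |f n| ^ p * w n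

/-- The weighted bound for the error operator. -/
def DAvg : Prop := ∀ p K : ℝ, 1 < p → 0 < K → ∃ C : ℝ, 0 ≤ C ∧ ∀ w : ℤ → ℝ,
  (∀ i, 0 < w i) → DAp p K w → ∀ (U : Finset ℤ) (f : ℤ → ℝ), (∀ n, 0 ≤ f n) →
    ∑ m ∈ U, (∑ n ∈ U, f n / (1 + ((m - n : ℤ) : ℝ) ^ 2)) ^ p * w m ≤ C * ∑ n ∈ U, f n ^ p * w n

/-- The averages over the cells `[nδ, (n+1)δ]`. -/
noncomputable def av (δ : ℝ) (F : ℝ → ℝ) (n : ℤ) : ℝ :=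
  δ⁻¹ * ∫ x in ((n : ℝ) * δ)..(((n : ℝ) + 1) * δ), F x

/-- The averages of an `A_p` weight are in the discrete `A_p`. -/
def AvAp : Prop := ∀ (p : ℝ) (W : ℝ → ℝ), 1 < p → IsAp p W → ∃ K : ℝ, 0 < K ∧ ∀ δ : ℝ, 0 < δ →
  (∀ n, 0 < av δ W n) ∧ DAp p K (av δ W)

/-- The averages of a function. -/
def AvNorm : Prop := ∀ (p : ℝ) (W : ℝ → ℝ), 1 < p → IsAp p W → ∃ K : ℝ, 0 < K ∧
  ∀ δ : ℝ, 0 < δ → ∀ f : ℝ → ℝ, Integrable f → ∀ n : ℤ,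
    ENNReal.ofReal ((av δ (fun x => |f x|) n) ^ p * (δ * av δ W n)) ≤
      ENNReal.ofReal K * ∫⁻ x in Set.Ico ((n : ℝ) * δ) (((n : ℝ) + 1) * δ),
        ENNReal.ofReal (|f x| ^ p * W x)

/-- Comparison of the truncated Hilbert transform with the discrete one. -/
def Comp : Prop := ∀ (f : ℝ → ℝ) (δ : ℝ) (N : ℕ), Integrable f → 0 < δ →
  (∀ x, x ∉ Set.Ico (-((N : ℝ) * δ)) ((N : ℝ) * δ) → f x = 0) →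
  ∀ (m : ℤ) (x : ℝ), x ∈ Set.Ico ((m : ℝ) * δ) (((m : ℝ) + 1) * δ) →
    |truncH f δ x - ∑ n ∈ Finset.Ico (-(N : ℤ)) N, av δ f n * ((m - n : ℤ) : ℝ)⁻¹| ≤
      4 * ∑ n ∈ Finset.Ico (-(N : ℤ)) N, av δ (fun y => |f y|) n / (1 + ((m - n : ℤ) : ℝ) ^ 2)

/-- The theorem of Hunt, Muckenhoupt and Wheeden. -/
def HMW : Prop := ∀ (p : ℝ) (W : ℝ → ℝ), 1 < p → IsAp p W → HilbertBounded p W

end Pool.Agent.V8H55.AP
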