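import Pool.Agent.V8H55.AP.Sp
import Pool.Agent.V8H55.AP.WS
import Pool.Agent.V8H55.AP.Hil
import Pool.Agent.V8H55.AP.Avg
import Pool.Agent.V8H55.AP.Op
import Pool.Agent.V8H55.AP.AvN
import Pool.Agent.V8H63.AP.Carl
import Pool.Agent.V8H63.AP.DForm
import Pool.Agent.V8H98.AP.Hmw

/-!
# The theorem of Hunt, Muckenhoupt and Wheeden
-/

set_option autoImplicit false

namespace Pool.Agent.V8H55.AP

open Pool.Agent.V8H55.HW

/-- If `W` is in `A_p` then the Hilbert transform is bounded for the weight `W`. -/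
theorem hmw_full : HMW :=
  Pool.Agent.V8H98.AP.hmw
    (dop_of (Pool.Agent.V8H63.AP.dform_of (sparseDom_of (oneStep hilbertIneq))
      (wsparse Pool.Agent.V8H63.AP.carl)))
    davg avAp avNorm Pool.Agent.V8H98.AP.comp

end Pool.Agent.V8H55.AP
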