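import Pool.Agent.V8H55.AP.Stm

/-!
# The truncated kernels
-/

set_option autoImplicit false

open Finset

namespace Pool.Agent.V8H55.AP

/-- the large-scale kernel -/
noncomputable def Dr (c x : ℝ) : ℝ := x / (max |x| c) ^ 2

theorem Dr_neg (c x : ℝ) : Dr c (-x) = -Dr c x := by
  unfold Dr; rw [abs_neg, neg_div]

theorem Dr_small {c x : ℝ} (h : |x| ≤ c) : Dr c x = x / c ^ 2 := by
  unfold Dr; rw [max_eq_right h]

theorem Dr_large {c x : ℝ} (hc : 0 < c) (h : c ≤ |x|) : Dr c x = x⁻¹ := by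
  unfold Dr
  have hx : x ≠ 0 := by
    intro h0; rw [h0, abs_zero] at h; linarith
  rw [max_eq_left h, sq_abs]; field_simp

theorem Dr_bound {c : ℝ} (hc : 0 < c) (x : ℝ) : |Dr c x| ≤ 1 / c := by
  unfold Dr
  have hm : 0 < max |x| c := lt_max_of_lt_right hc
  rw [abs_div, abs_of_pos (pow_pos hm 2), div_le_div_iff₀ (pow_pos hm 2) hc]
  have h1 : |x| ≤ max |x| c := le_max_left _ _
  have h2 : c ≤ max |x| c := le_max_right _ _
  nlinarith [abs_nonneg x]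

theorem Dr_mixed {c x y : ℝ} (hc : 0 < c) (hx : |x| ≤ c) (hy : c < y) :
    |Dr c x - Dr c y| ≤ |x - y| / c ^ 2 := by
  have hy0 : 0 < y := hc.trans hy
  have hx' := abs_le.1 hx
  rw [Dr_small hx, Dr_large hc (by rw [abs_of_pos hy0]; exact hy.le)]
  have h1 : |x - y| = y - x := by rw [abs_of_nonpos (by linarith)]; ring
  rw [h1]
  have hc2 : 0 < c ^ 2 := by positivity
  have h2 : c ^ 2 * y⁻¹ ≤ c := by
    rw [← div_eq_mul_inv, div_le_iff₀ hy0]; nlinarith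
  have h3 : 2 * c ≤ y + c ^ 2 * y⁻¹ := by
    have : (y + c ^ 2 * y⁻¹) * y = y ^ 2 + c ^ 2 := by field_simp
    have h4 : 2 * c * y ≤ (y + c ^ 2 * y⁻¹) * y := by rw [this]; nlinarith [sq_nonneg (y - c)]
    exact le_of_mul_le_mul_right h4 hy0
  rw [le_div_iff₀ hc2, ← abs_of_pos hc2, ← abs_mul, abs_of_pos hc2]
  have h5 : (x / c ^ 2 - y⁻¹) * c ^ 2 = x - c ^ 2 * y⁻¹ := by field_simp
  rw [h5, abs_le]
  constructor <;> linarith

theorem Dr_lip {c : ℝ} (hc : 0 < c) (x y : ℝ) : |Dr c x - Dr c y| ≤ |x - y| / c ^ 2 := by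
  have hc2 : 0 < c ^ 2 := by positivity
  have mixed : ∀ x y : ℝ, |x| ≤ c → c < |y| → |Dr c x - Dr c y| ≤ |x - y| / c ^ 2 := by
    intro x y hx hy
    rcases le_or_gt 0 y with h | h
    · rw [abs_of_nonneg h] at hy; exact Dr_mixed hc hx hy
    · rw [abs_of_neg h] at hy
      have := Dr_mixed hc (x := -x) (y := -y) (by rw [abs_neg]; exact hx) hy
      rw [Dr_neg, Dr_neg] at this
      have e1 : -Dr c x - -Dr c y = -(Dr c x - Dr c y) := by ring
      have e2 : -x - -y = -(x - y) := by ring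
      rw [e1, e2, abs_neg, abs_neg] at this
      exact this
  have large : ∀ x y : ℝ, c < x → c < |y| → |Dr c x - Dr c y| ≤ |x - y| / c ^ 2 := by
    intro x y hx hy
    have hx0 : 0 < x := hc.trans hx
    have hy0 : y ≠ 0 := by intro h; rw [h, abs_zero] at hy; linarith
    rw [Dr_large hc (by rw [abs_of_pos hx0]; exact hx.le), Dr_large hc hy.le]
    have e1 : x⁻¹ - y⁻¹ = (y - x) / (x * y) := by field_simp
    rw [e1, abs_div, abs_sub_comm y x, abs_mul, abs_of_pos hx0]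
    apply div_le_div_of_nonneg_left (abs_nonneg _) hc2
    nlinarith
  rcases le_or_gt |x| c with hx | hx
  · rcases le_or_gt |y| c with hy | hy
    · rw [Dr_small hx, Dr_small hy, ← sub_div, abs_div, abs_of_pos hc2]
    · exact mixed x y hx hy
  · rcases le_or_gt |y| c with hy | hy
    · rw [abs_sub_comm, abs_sub_comm x y]; exact mixed y x hy hx
    · rcases le_or_gt 0 x with h | h
      · rw [abs_of_nonneg h] at hx; exact large x y hx hy
      · rw [abs_of_neg h] at hx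
        have := large (-x) (-y) hx (by rw [abs_neg]; exact hy)
        rw [Dr_neg, Dr_neg] at this
        have e1 : -Dr c x - -Dr c y = -(Dr c x - Dr c y) := by ring
        have e2 : -x - -y = -(x - y) := by ring
        rw [e1, e2, abs_neg, abs_neg] at this
        exact this

theorem T_eq (s : ℕ) (k : ℤ) : T s k = (k : ℝ)⁻¹ - Dr (2 ^ s) k := by
  unfold T
  split_ifs with h
  · have h1 : |(k : ℝ)| ≤ 2 ^ s := by
      have : (|k| : ℤ) ≤ 2 ^ s := h.le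
      exact_mod_cast this
    rw [Dr_small h1]
    have : (4 : ℝ) ^ s = (2 ^ s) ^ 2 := by rw [← pow_mul, mul_comm, pow_mul]; norm_num
    rw [this]
  · have h1 : (2 : ℝ) ^ s ≤ |(k : ℝ)| := by
      have : (2 : ℤ) ^ s ≤ |k| := not_lt.1 h
      exact_mod_cast this
    rw [Dr_large (by positivity) h1, sub_self]

/-- the kernel of scale `s` -/
noncomputable def Ks (s : ℕ) (k : ℤ) : ℝ := T (s + 1) k - T s k

theorem T_zero (k : ℤ) : T 0 k = 0 := by
  unfold T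
  split_ifs with h
  · have : k = 0 := by
      rw [pow_zero] at h
      exact Int.abs_lt_one_iff.1 h
    rw [this]; simp
  · rfl

theorem T_far {s : ℕ} {k : ℤ} (h : 2 ^ s ≤ |k|) : T s k = 0 := by
  unfold T; rw [if_neg (not_lt.2 h)]

theorem Ks_far {s : ℕ} {k : ℤ} (h : 2 ^ (s + 1) ≤ |k|) : Ks s k = 0 := by
  unfold Ks
  rw [T_far h, T_far, sub_zero]
  refine le_trans ?_ h
  rw [pow_succ]
  have : (0 : ℤ) < 2 ^ s := by positivity
  linarith

theorem Ks_lip (s : ℕ) (k l : ℤ) : |Ks s k - Ks s l| ≤ 2 * |((k - l : ℤ) : ℝ)| / 4 ^ s := by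
  unfold Ks
  rw [T_eq, T_eq, T_eq, T_eq]
  have h1 := Dr_lip (c := 2 ^ s) (by positivity) (k : ℝ) (l : ℝ)
  have h2 := Dr_lip (c := 2 ^ (s + 1)) (by positivity) (k : ℝ) (l : ℝ)
  have e1 : ((2 : ℝ) ^ s) ^ 2 = 4 ^ s := by rw [← pow_mul, mul_comm, pow_mul]; norm_num
  have e2 : ((2 : ℝ) ^ (s + 1)) ^ 2 = 4 ^ s * 4 := by rw [← pow_mul, mul_comm, pow_mul]; norm_num [pow_succ]
  rw [e1] at h1
  rw [e2] at h2
  have e3 : (k : ℝ)⁻¹ - Dr (2 ^ (s + 1)) k - ((k : ℝ)⁻¹ - Dr (2 ^ s) k) - ((l : ℝ)⁻¹ - Dr (2 ^ (s + 1)) l - ((l : ℝ)⁻¹ - Dr (2 ^ s) l)) =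
      (Dr (2 ^ s) k - Dr (2 ^ s) l) - (Dr (2 ^ (s + 1)) k - Dr (2 ^ (s + 1)) l) := by ring
  rw [e3]
  have h3 : |(k : ℝ) - l| / (4 ^ s * 4) ≤ |(k : ℝ) - l| / 4 ^ s := by
    apply div_le_div_of_nonneg_left (abs_nonneg _) (by positivity)
    have : (0 : ℝ) < 4 ^ s := by positivity
    linarith
  have h4 := abs_sub (Dr (2 ^ s) k - Dr (2 ^ s) l) (Dr (2 ^ (s + 1)) k - Dr (2 ^ (s + 1)) l)
  have e4 : 2 * |((k - l : ℤ) : ℝ)| / 4 ^ s = |(k : ℝ) - l| / 4 ^ s + |(k : ℝ) - l| / 4 ^ s := by push_cast; ring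
  rw [e4]
  linarith

theorem T_sub (S t : ℕ) (ht : t ≤ S) (k : ℤ) :
    T S k - T t k = ∑ s ∈ Finset.range S, if t ≤ s then Ks s k else 0 := by
  induction S, ht using Nat.le_induction with
  | base =>
    rw [sub_self, eq_comm]
    refine Finset.sum_eq_zero fun s hs => ?_
    rw [Finset.mem_range] at hs
    rw [if_neg (by omega)]
  | succ n hn ih =>
    rw [Finset.sum_range_succ, ← ih, if_pos hn]
    unfold Ks; ring

theorem card_I (s : ℕ) (j : ℤ) : #(I s j) = 2 ^ s := by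
  unfold I
  rw [Int.card_Ico]
  have : (j + 1) * 2 ^ s - j * 2 ^ s = ((2 ^ s : ℕ) : ℤ) := by push_cast; ring
  rw [this, Int.toNat_natCast]

theorem card_J (s : ℕ) (j : ℤ) : #(J s j) = 3 * 2 ^ s := by
  unfold J
  rw [Int.card_Ico]
  have : (j + 2) * 2 ^ s - (j - 1) * 2 ^ s = ((3 * 2 ^ s : ℕ) : ℤ) := by push_cast; ring
  rw [this, Int.toNat_natCast]

theorem mem_I {s : ℕ} {j n : ℤ} : n ∈ I s j ↔ n / 2 ^ s = j := by
  unfold I
  have h0 : (0 : ℤ) < 2 ^ s := by positivity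
  rw [Finset.mem_Ico]
  constructor
  · rintro ⟨h1, h2⟩
    apply le_antisymm
    · exact Int.lt_add_one_iff.1 (Int.ediv_lt_of_lt_mul h0 h2)
    · exact Int.le_ediv_of_mul_le h0 h1
  · rintro rfl
    exact ⟨Int.ediv_mul_le _ h0.ne', Int.lt_ediv_add_one_mul_self _ h0⟩

theorem mem_J {s : ℕ} {j n : ℤ} : n ∈ J s j ↔ (n / 2 ^ s = j - 1 ∨ n / 2 ^ s = j ∨ n / 2 ^ s = j + 1) := by
  have h0 : (0 : ℤ) < 2 ^ s := by positivity
  rw [← mem_I, ← mem_I, ← mem_I]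
  unfold I J
  simp only [Finset.mem_Ico]
  have e1 : (j - 1 + 1) * 2 ^ s = j * 2 ^ s := by ring
  have e2 : (j + 1 + 1) * 2 ^ s = (j + 2) * 2 ^ s := by ring
  have e3 : (j + 1) * 2 ^ s = j * 2 ^ s + 2 ^ s := by ring
  have e4 : (j - 1) * 2 ^ s = j * 2 ^ s - 2 ^ s := by ring
  have e5 : (j + 2) * 2 ^ s = j * 2 ^ s + 2 ^ s + 2 ^ s := by ring
  rw [e1, e2, e3, e4, e5]
  omega

theorem I_sub_J (s : ℕ) (j : ℤ) : I s j ⊆ J s j := by
  intro n hn
  rw [mem_I] at hn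
  rw [mem_J]
  exact Or.inr (Or.inl hn)

/-- near points -/
theorem mem_J_of_near {s : ℕ} {j n m : ℤ} (hn : n ∈ I s j) (h : |m - n| < 2 ^ s) : m ∈ J s j := by
  unfold I at hn
  unfold J
  rw [Finset.mem_Ico] at hn ⊢
  rw [abs_lt] at h
  have e1 : (j + 1) * 2 ^ s = j * 2 ^ s + 2 ^ s := by ring
  have e2 : (j - 1) * 2 ^ s = j * 2 ^ s - 2 ^ s := by ring
  have e3 : (j + 2) * 2 ^ s = j * 2 ^ s + 2 ^ s + 2 ^ s := by ring
  rw [e1] at hn
  rw [e2, e3]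
  omega

theorem l2loc (hH : HilbertIneq) (u v : ℤ → ℝ) (s : ℕ) (j : ℤ) {A B : ℝ} (hA : 0 ≤ A) (hB : 0 ≤ B)
    (hu : ∀ n ∈ I s j, |u n| ≤ A) (hv : ∀ m ∈ J s j, |v m| ≤ B) :
    |∑ n ∈ I s j, ∑ m ∈ J s j, u n * v m * T s (m - n)| ≤ 11 * (A * B * 2 ^ s) := by
  classical
  set u' : ℤ → ℝ := fun n => if n ∈ I s j then u n else 0 with hu'
  have e0 : ∑ n ∈ I s j, ∑ m ∈ J s j, u n * v m * T s (m - n) =
      (∑ n ∈ J s j, ∑ m ∈ J s j, u' n * v m * ((m - n : ℤ) : ℝ)⁻¹) -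
      ∑ n ∈ I s j, ∑ m ∈ J s j, u n * v m * Dr (2 ^ s) ((m - n : ℤ) : ℝ) := by
    have e1 : ∑ n ∈ J s j, ∑ m ∈ J s j, u' n * v m * ((m - n : ℤ) : ℝ)⁻¹ =
        ∑ n ∈ I s j, ∑ m ∈ J s j, u n * v m * ((m - n : ℤ) : ℝ)⁻¹ := by
      rw [← Finset.sum_subset (I_sub_J s j)]
      · refine Finset.sum_congr rfl fun n hn => ?_
        refine Finset.sum_congr rfl fun m _ => ?_
        rw [hu']; simp only [if_pos hn]
      · intro n _ hn
        refine Finset.sum_eq_zero fun m _ => ?_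
        rw [hu']; simp only [if_neg hn]; ring
    rw [e1, ← Finset.sum_sub_distrib]
    refine Finset.sum_congr rfl fun n _ => ?_
    rw [← Finset.sum_sub_distrib]
    refine Finset.sum_congr rfl fun m _ => ?_
    rw [T_eq]; ring
  rw [e0]
  have h1 := hH (J s j) u' v
  have h2 : Real.sqrt (∑ n ∈ J s j, u' n ^ 2) ≤ A * Real.sqrt (2 ^ s) := by
    rw [← Real.sqrt_sq hA, ← Real.sqrt_mul (sq_nonneg A)]
    apply Real.sqrt_le_sqrt
    have e1 : ∑ n ∈ J s j, u' n ^ 2 = ∑ n ∈ I s j, u n ^ 2 := by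
      rw [← Finset.sum_subset (I_sub_J s j)]
      · refine Finset.sum_congr rfl fun n hn => ?_
        rw [hu']; simp only [if_pos hn]
      · intro n _ hn
        rw [hu']; simp only [if_neg hn]; ring
    rw [e1]
    calc ∑ n ∈ I s j, u n ^ 2 ≤ ∑ _n ∈ I s j, A ^ 2 := by
          refine Finset.sum_le_sum fun n hn => ?_
          rw [← sq_abs (u n)]
          exact pow_le_pow_left₀ (abs_nonneg _) (hu n hn) 2
      _ = A ^ 2 * 2 ^ s := by rw [Finset.sum_const, card_I, nsmul_eq_mul]; push_cast; ring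
  have h3 : Real.sqrt (∑ n ∈ J s j, v n ^ 2) ≤ B * Real.sqrt (3 * 2 ^ s) := by
    rw [← Real.sqrt_sq hB, ← Real.sqrt_mul (sq_nonneg B)]
    apply Real.sqrt_le_sqrt
    calc ∑ n ∈ J s j, v n ^ 2 ≤ ∑ _n ∈ J s j, B ^ 2 := by
          refine Finset.sum_le_sum fun n hn => ?_
          rw [← sq_abs (v n)]
          exact pow_le_pow_left₀ (abs_nonneg _) (hv n hn) 2
      _ = B ^ 2 * (3 * 2 ^ s) := by rw [Finset.sum_const, card_J, nsmul_eq_mul]; push_cast; ring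
  have h4 : Real.sqrt (2 ^ s) * Real.sqrt (3 * 2 ^ s) ≤ 2 * 2 ^ s := by
    rw [← Real.sqrt_mul (by positivity)]
    have : (2 : ℝ) ^ s * (3 * 2 ^ s) ≤ (2 * 2 ^ s) ^ 2 := by
      have : (0 : ℝ) ≤ 2 ^ s := by positivity
      nlinarith
    calc Real.sqrt (2 ^ s * (3 * 2 ^ s)) ≤ Real.sqrt ((2 * 2 ^ s) ^ 2) := Real.sqrt_le_sqrt this
      _ = 2 * 2 ^ s := Real.sqrt_sq (by positivity)
  have h5 : 4 * Real.sqrt (∑ n ∈ J s j, u' n ^ 2) * Real.sqrt (∑ n ∈ J s j, v n ^ 2) ≤ 8 * (A * B * 2 ^ s) := by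
    calc 4 * Real.sqrt (∑ n ∈ J s j, u' n ^ 2) * Real.sqrt (∑ n ∈ J s j, v n ^ 2)
        ≤ 4 * (A * Real.sqrt (2 ^ s)) * (B * Real.sqrt (3 * 2 ^ s)) := by gcongr
      _ = 4 * (A * B) * (Real.sqrt (2 ^ s) * Real.sqrt (3 * 2 ^ s)) := by ring
      _ ≤ 4 * (A * B) * (2 * 2 ^ s) := by gcongr
      _ = 8 * (A * B * 2 ^ s) := by ring
  have h6 : |∑ n ∈ I s j, ∑ m ∈ J s j, u n * v m * Dr (2 ^ s) ((m - n : ℤ) : ℝ)| ≤ 3 * (A * B * 2 ^ s) := by
    refine (Finset.abs_sum_le_sum_abs _ _).trans ?_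
    calc ∑ n ∈ I s j, |∑ m ∈ J s j, u n * v m * Dr (2 ^ s) ((m - n : ℤ) : ℝ)|
        ≤ ∑ _n ∈ I s j, (3 * 2 ^ s) * (A * B * (1 / 2 ^ s)) := by
          refine Finset.sum_le_sum fun n hn => ?_
          refine (Finset.abs_sum_le_sum_abs _ _).trans ?_
          calc ∑ m ∈ J s j, |u n * v m * Dr (2 ^ s) ((m - n : ℤ) : ℝ)| ≤ ∑ _m ∈ J s j, A * B * (1 / 2 ^ s) := by
                refine Finset.sum_le_sum fun m hm => ?_
                rw [abs_mul, abs_mul]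
                have := Dr_bound (c := 2 ^ s) (by positivity) ((m - n : ℤ) : ℝ)
                have h7 := hu n hn
                have h8 := hv m hm
                gcongr
            _ = (3 * 2 ^ s) * (A * B * (1 / 2 ^ s)) := by rw [Finset.sum_const, card_J, nsmul_eq_mul]; push_cast; ring
      _ = 3 * (A * B * 2 ^ s) := by
          rw [Finset.sum_const, card_I, nsmul_eq_mul]; push_cast; field_simp
  have h9 := abs_sub (∑ n ∈ J s j, ∑ m ∈ J s j, u' n * v m * ((m - n : ℤ) : ℝ)⁻¹)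
    (∑ n ∈ I s j, ∑ m ∈ J s j, u n * v m * Dr (2 ^ s) ((m - n : ℤ) : ℝ))
  linarith

end Pool.Agent.V8H55.AP
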