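import Pool.Agent.V8H55.AP.Ker

/-!
# Stopping functions and partitions
-/

set_option autoImplicit false

open Finset

namespace Pool.Agent.V8H55.AP

/-- a stopping function: constant on its cells -/
def Stop (τ : ℤ → ℕ) : Prop := ∀ n n' : ℤ, n' / 2 ^ τ n = n / 2 ^ τ n → τ n' = τ n

/-- a union of cells -/
def Closed (τ : ℤ → ℕ) (U : Finset ℤ) : Prop :=
  ∀ n ∈ U, ∀ n' : ℤ, n' / 2 ^ τ n = n / 2 ^ τ n → n' ∈ U

/-- the cell of a point -/
def key (τ : ℤ → ℕ) (n : ℤ) : ℕ × ℤ := (τ n, n / 2 ^ τ n)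

theorem key_of_mem {τ : ℤ → ℕ} (hτ : Stop τ) {U : Finset ℤ} (hU : Closed τ U) {κ : ℕ × ℤ}
    (hκ : κ ∈ U.image (key τ)) {n : ℤ} (hn : n ∈ I κ.1 κ.2) : key τ n = κ ∧ n ∈ U := by
  obtain ⟨m, hm, rfl⟩ := Finset.mem_image.1 hκ
  rw [mem_I] at hn
  simp only [key] at hn ⊢
  have := hτ m n hn
  exact ⟨by rw [this, hn], hU m hm n hn⟩

theorem fib {τ : ℤ → ℕ} (hτ : Stop τ) {U : Finset ℤ} (hU : Closed τ U) (φ : ℤ → ℝ) :
    ∑ n ∈ U, φ n = ∑ κ ∈ U.image (key τ), ∑ n ∈ I κ.1 κ.2, φ n := by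
  rw [← Finset.sum_fiberwise_of_maps_to (s := U) (t := U.image (key τ)) (g := key τ)
    (fun n hn => Finset.mem_image_of_mem _ hn)]
  refine Finset.sum_congr rfl fun κ hκ => ?_
  refine Finset.sum_congr ?_ fun _ _ => rfl
  ext n
  rw [Finset.mem_filter]
  constructor
  · rintro ⟨_, rfl⟩
    rw [mem_I]; rfl
  · intro h
    have := key_of_mem hτ hU hκ h
    exact ⟨this.2, this.1⟩

/-- the average over the cell -/
noncomputable def ca (τ : ℤ → ℕ) (f : ℤ → ℝ) (n : ℤ) : ℝ := (∑ n' ∈ I (τ n) (n / 2 ^ τ n), f n') / 2 ^ τ n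

theorem sum_ca {τ : ℤ → ℕ} (hτ : Stop τ) {U : Finset ℤ} (hU : Closed τ U) (f : ℤ → ℝ) (G : ℕ × ℤ → ℝ) :
    ∑ n ∈ U, ca τ f n * G (key τ n) = ∑ n ∈ U, f n * G (key τ n) := by
  rw [fib hτ hU, fib hτ hU]
  refine Finset.sum_congr rfl fun κ hκ => ?_
  have e1 : ∀ n ∈ I κ.1 κ.2, ca τ f n * G (key τ n) = (∑ n' ∈ I κ.1 κ.2, f n') / 2 ^ κ.1 * G κ := by
    intro n hn
    have h1 := (key_of_mem hτ hU hκ hn).1
    have h2 : ca τ f n = (∑ n' ∈ I (key τ n).1 (key τ n).2, f n') / 2 ^ (key τ n).1 := rfl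
    rw [h2, h1]
  have e2 : ∀ n ∈ I κ.1 κ.2, f n * G (key τ n) = f n * G κ := by
    intro n hn
    rw [(key_of_mem hτ hU hκ hn).1]
  rw [Finset.sum_congr rfl e1, Finset.sum_congr rfl e2, Finset.sum_const, card_I, nsmul_eq_mul,
    ← Finset.sum_mul]
  push_cast
  field_simp

theorem canc {τ : ℤ → ℕ} (hτ : Stop τ) {U : Finset ℤ} (hU : Closed τ U) (f : ℤ → ℝ) (G : ℕ × ℤ → ℝ) :
    ∑ n ∈ U, (f n - ca τ f n) * G (key τ n) = 0 := by
  simp only [sub_mul]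
  rw [Finset.sum_sub_distrib, sum_ca hτ hU, sub_self]

theorem ca_nonneg {τ : ℤ → ℕ} {f : ℤ → ℝ} (hf : ∀ n, 0 ≤ f n) (n : ℤ) : 0 ≤ ca τ f n := by
  unfold ca
  exact div_nonneg (Finset.sum_nonneg fun _ _ => hf _) (by positivity)

theorem sum_abs_sub {τ : ℤ → ℕ} (hτ : Stop τ) {U : Finset ℤ} (hU : Closed τ U) {f : ℤ → ℝ}
    (hf : ∀ n, 0 ≤ f n) : ∑ n ∈ U, |f n - ca τ f n| ≤ 2 * ∑ n ∈ U, f n := by
  have h1 := sum_ca hτ hU f (fun _ => 1)
  simp only [mul_one] at h1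
  calc ∑ n ∈ U, |f n - ca τ f n| ≤ ∑ n ∈ U, (f n + ca τ f n) := by
        refine Finset.sum_le_sum fun n _ => ?_
        have := abs_sub (f n) (ca τ f n)
        rw [abs_of_nonneg (hf n), abs_of_nonneg (ca_nonneg hf n)] at this
        exact this
    _ = 2 * ∑ n ∈ U, f n := by rw [Finset.sum_add_distrib, h1]; ring

theorem div_mono_eq {n n' : ℤ} {t s : ℕ} (h : n' / 2 ^ t = n / 2 ^ t) (hts : t ≤ s) :
    n' / 2 ^ s = n / 2 ^ s := by
  obtain ⟨r, rfl⟩ := Nat.exists_eq_add_of_le hts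
  rw [pow_add, ← Int.ediv_ediv_of_nonneg (by positivity), ← Int.ediv_ediv_of_nonneg (by positivity), h]

open Classical in
/-- the largest bad scale -/
noncomputable def tau (bad : ℕ → ℤ → Prop) (S : ℕ) (n : ℤ) : ℕ :=
  Nat.findGreatest (fun s => bad s (n / 2 ^ s)) (S - 1)

variable {bad : ℕ → ℤ → Prop} {S : ℕ}

theorem tau_le (n : ℤ) : tau bad S n ≤ S - 1 := by
  classical
  unfold tau; exact Nat.findGreatest_le _

theorem tau_not {n : ℤ} {s : ℕ} (h : tau bad S n < s) (hs : s ≤ S - 1) : ¬ bad s (n / 2 ^ s) := by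
  classical
  unfold tau at h
  exact Nat.findGreatest_is_greatest h hs

theorem tau_ge {n : ℤ} {s : ℕ} (hs : s ≤ S - 1) (h : bad s (n / 2 ^ s)) :
    s ≤ tau bad S n ∧ bad (tau bad S n) (n / 2 ^ tau bad S n) := by
  classical
  unfold tau
  refine ⟨?_, ?_⟩
  · exact Nat.le_findGreatest hs h
  · exact Nat.findGreatest_spec (P := fun s => bad s (n / 2 ^ s)) hs h

theorem tau_zero {n : ℤ} (h : ¬ bad (tau bad S n) (n / 2 ^ tau bad S n)) : tau bad S n = 0 := by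
  classical
  by_contra h0
  apply h
  have := Nat.findGreatest_of_ne_zero (P := fun s => bad s (n / 2 ^ s)) (n := S - 1) (m := tau bad S n)
    (by unfold tau; rfl) h0
  exact this

theorem tau_stop : Stop (tau bad S) := by
  classical
  intro n n' h
  have key : ∀ s, tau bad S n ≤ s → n' / 2 ^ s = n / 2 ^ s := fun s hs => div_mono_eq h hs
  have : tau bad S n' = tau bad S n := by
    conv_lhs => unfold tau
    rw [Nat.findGreatest_eq_iff]
    refine ⟨tau_le n, fun h0 => ?_, fun s h1 h2 => ?_⟩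
    · rw [key _ le_rfl]
      by_contra hc
      exact h0 (tau_zero hc)
    · rw [key _ h1.le]
      exact tau_not h1 h2
  exact this

theorem closed_I (hS : 1 ≤ S) (j : ℤ) : Closed (tau bad S) (I S j) := by
  intro n hn n' h
  rw [mem_I] at hn ⊢
  rw [← hn]
  exact div_mono_eq h (le_trans (tau_le n) (by omega))

theorem closed_J (hS : 1 ≤ S) (j : ℤ) : Closed (tau bad S) (J S j) := by
  intro n hn n' h
  rw [mem_J] at hn ⊢
  rw [div_mono_eq h (le_trans (tau_le n) (by omega) : tau bad S n ≤ S)]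
  exact hn

open Classical in
/-- the maximal estimate -/
theorem max_est {h : ℤ → ℝ} (hh : ∀ n, 0 ≤ h n) {l : ℝ} (hl : 0 < l)
    {U : Finset ℤ} (hU : Closed (tau (fun s r => l * 2 ^ s < ∑ n ∈ I s r, h n) S) U) :
    l * (∑ κ ∈ (U.image (key (tau (fun s r => l * 2 ^ s < ∑ n ∈ I s r, h n) S))).filter
      (fun κ => l * 2 ^ κ.1 < ∑ n ∈ I κ.1 κ.2, h n), (2 : ℝ) ^ κ.1) ≤ ∑ n ∈ U, h n := by
  rw [fib tau_stop hU, Finset.sum_filter, Finset.mul_sum]
  refine Finset.sum_le_sum fun κ _ => ?_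
  split_ifs with h1
  · exact h1.le
  · rw [mul_zero]; exact Finset.sum_nonneg fun _ _ => hh _

end Pool.Agent.V8H55.AP
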