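import Pool.Agent.V8H55.AP.StepB

/-!
# Sparse domination of the truncated form
-/

set_option autoImplicit false

open Finset

namespace Pool.Agent.V8H55.AP

theorem I_nonempty (s : ℕ) (j : ℤ) : (I s j).Nonempty := by
  rw [← Finset.card_pos, card_I]; positivity

/-- The sparse domination, with all cells inside the starting cell. -/
theorem sparse_aux {C : ℝ} (hC : 0 ≤ C) {f g : ℤ → ℝ} (hf : ∀ n, 0 ≤ f n) (hg : ∀ n, 0 ≤ g n)
    (hst : ∀ (S : ℕ) (j : ℤ), ∃ st : Finset (ℕ × ℤ),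
      (∀ k ∈ st, k.1 < S ∧ I k.1 k.2 ⊆ I S j) ∧
      (∀ k ∈ st, ∀ k' ∈ st, k ≠ k' → Disjoint (I k.1 k.2) (I k'.1 k'.2)) ∧
      2 * ∑ k ∈ st, 2 ^ k.1 ≤ 2 ^ S ∧
      |Lam f g S j - ∑ k ∈ st, Lam f g k.1 k.2| ≤
        C * ((∑ n ∈ J S j, f n) * (∑ n ∈ J S j, g n) / 2 ^ S)) :
    ∀ (S : ℕ) (j : ℤ), ∃ (F : Finset (ℕ × ℤ)) (E : ℕ × ℤ → Finset ℤ), Sparse F E ∧
      (∀ k ∈ F, k.1 ≤ S ∧ I k.1 k.2 ⊆ I S j) ∧
      |Lam f g S j| ≤ C * ∑ k ∈ F, (∑ n ∈ J k.1 k.2, f n) * (∑ n ∈ J k.1 k.2, g n) / 2 ^ k.1 := by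
  classical
  intro S
  induction S using Nat.strong_induction_on with
  | _ S ih =>
    intro j
    obtain ⟨st, h1, h2, h3, h4⟩ := hst S j
    choose! Fk Ek hk using fun (k : ℕ × ℤ) (hk : k.1 < S) => ih k.1 hk k.2
    -- the cells below
    set G := st.biUnion Fk with hG
    have hGlt : ∀ k ∈ G, k.1 < S := by
      intro k hk'
      rw [hG, Finset.mem_biUnion] at hk'
      obtain ⟨a, ha, hka⟩ := hk'
      exact lt_of_le_of_lt ((hk a (h1 a ha).1).2.1 k hka).1 (h1 a ha).1
    have hGsub : ∀ k ∈ G, ∃ a ∈ st, k ∈ Fk a ∧ I k.1 k.2 ⊆ I a.1 a.2 := by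
      intro k hk'
      rw [hG, Finset.mem_biUnion] at hk'
      obtain ⟨a, ha, hka⟩ := hk'
      exact ⟨a, ha, hka, ((hk a (h1 a ha).1).2.1 k hka).2⟩
    -- uniqueness of the parent
    have huniq : ∀ a ∈ st, ∀ b ∈ st, ∀ k ∈ Fk a, ∀ l ∈ Fk b, ¬ Disjoint (I k.1 k.2) (I l.1 l.2) → a = b := by
      intro a ha b hb k hka l hlb hnd
      by_contra hab
      apply hnd
      exact Finset.disjoint_of_subset_left ((hk a (h1 a ha).1).2.1 k hka).2
        (Finset.disjoint_of_subset_right ((hk b (h1 b hb).1).2.1 l hlb).2 (h2 a ha b hb hab))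
    have huniq' : ∀ a ∈ st, ∀ b ∈ st, ∀ k, k ∈ Fk a → k ∈ Fk b → a = b := by
      intro a ha b hb k hka hkb
      refine huniq a ha b hb k hka k hkb ?_
      rw [Finset.disjoint_self_iff_empty]
      exact (I_nonempty _ _).ne_empty
    -- the parent function
    have hpar : ∃ par : ℕ × ℤ → ℕ × ℤ, ∀ k ∈ G, par k ∈ st ∧ k ∈ Fk (par k) ∧ I k.1 k.2 ⊆ I (par k).1 (par k).2 := by
      choose! par hpar using hGsub
      exact ⟨par, hpar⟩
    obtain ⟨par, hpar⟩ := hpar
    have hroot : (S, j) ∉ G := fun h => by have := hGlt _ h; simp at this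
    set E : ℕ × ℤ → Finset ℤ := fun k => if k = (S, j) then (I S j) \ (st.biUnion fun a => I a.1 a.2)
      else Ek (par k) k with hE
    have hE0 : E (S, j) = (I S j) \ (st.biUnion fun a => I a.1 a.2) := by rw [hE]; simp
    have hEk : ∀ k ∈ G, E k = Ek (par k) k := by
      intro k hk'
      have : k ≠ (S, j) := fun h => hroot (h ▸ hk')
      rw [hE]; simp only [if_neg this]
    have hEsub : ∀ k ∈ G, E k ⊆ I k.1 k.2 := by
      intro k hk'
      rw [hEk k hk']
      obtain ⟨p1, p2, _⟩ := hpar k hk'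
      exact (hk _ (h1 _ p1).1).1.sub k p2
    have hdisj0 : ∀ k ∈ G, Disjoint (E (S, j)) (E k) := by
      intro k hk'
      obtain ⟨p1, p2, p3⟩ := hpar k hk'
      rw [hE0]
      rw [Finset.disjoint_left]
      intro n hn hn'
      rw [Finset.mem_sdiff] at hn
      apply hn.2
      rw [Finset.mem_biUnion]
      exact ⟨par k, p1, p3 (hEsub k hk' hn')⟩
    refine ⟨insert (S, j) G, E, ⟨?_, ?_, ?_⟩, ?_, ?_⟩
    · intro k hk'
      rw [Finset.mem_insert] at hk'
      rcases hk' with rfl | hk'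
      · rw [hE0]; exact Finset.sdiff_subset
      · exact hEsub k hk'
    · intro k hk'
      rw [Finset.mem_insert] at hk'
      rcases hk' with rfl | hk'
      · rw [hE0]
        have hsub : (st.biUnion fun a => I a.1 a.2) ⊆ I S j := by
          intro n hn
          rw [Finset.mem_biUnion] at hn
          obtain ⟨a, ha, hna⟩ := hn
          exact (h1 a ha).2 hna
        have hc1 : #(st.biUnion fun a => I a.1 a.2) ≤ ∑ k ∈ st, 2 ^ k.1 := by
          refine Finset.card_biUnion_le.trans ?_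
          exact Finset.sum_le_sum fun κ _ => (card_I _ _).le
        have hc2 := Finset.card_sdiff_add_card_eq_card hsub
        rw [card_I] at hc2
        simp only
        omega
      · rw [hEk k hk']
        obtain ⟨p1, p2, _⟩ := hpar k hk'
        exact (hk _ (h1 _ p1).1).1.card k p2
    · intro k hk' l hl' hne
      rw [Finset.mem_insert] at hk' hl'
      rcases hk' with rfl | hk'
      · rcases hl' with rfl | hl'
        · exact absurd rfl hne
        · exact hdisj0 l hl'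
      · rcases hl' with rfl | hl'
        · exact (hdisj0 k hk').symm
        · obtain ⟨p1, p2, _⟩ := hpar k hk'
          obtain ⟨q1, q2, _⟩ := hpar l hl'
          by_cases hpq : par k = par l
          · rw [hEk k hk', hEk l hl', ← hpq]
            rw [← hpq] at q2
            exact (hk _ (h1 _ p1).1).1.disj k p2 l q2 hne
          · by_contra hnd
            apply hpq
            apply huniq _ p1 _ q1 k p2 l q2
            intro hd
            exact hnd (Finset.disjoint_of_subset_left (hEsub k hk') (Finset.disjoint_of_subset_right (hEsub l hl') hd))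
    · intro k hk'
      rw [Finset.mem_insert] at hk'
      rcases hk' with rfl | hk'
      · exact ⟨le_rfl, subset_rfl⟩
      · obtain ⟨p1, p2, p3⟩ := hpar k hk'
        exact ⟨(hGlt k hk').le, p3.trans (h1 _ p1).2⟩
    · rw [Finset.sum_insert hroot, mul_add]
      have e1 : ∑ k ∈ G, (∑ n ∈ J k.1 k.2, f n) * (∑ n ∈ J k.1 k.2, g n) / 2 ^ k.1 =
          ∑ a ∈ st, ∑ k ∈ Fk a, (∑ n ∈ J k.1 k.2, f n) * (∑ n ∈ J k.1 k.2, g n) / 2 ^ k.1 := by
        rw [hG, Finset.sum_biUnion]
        intro a ha b hb hab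
        rw [Function.onFun, Finset.disjoint_left]
        intro k hka hkb
        exact hab (huniq' a ha b hb k hka hkb)
      have e2 : |∑ k ∈ st, Lam f g k.1 k.2| ≤ C * ∑ k ∈ G, (∑ n ∈ J k.1 k.2, f n) * (∑ n ∈ J k.1 k.2, g n) / 2 ^ k.1 := by
        rw [e1, Finset.mul_sum]
        refine (Finset.abs_sum_le_sum_abs _ _).trans ?_
        exact Finset.sum_le_sum fun a ha => (hk a (h1 a ha).1).2.2
      have e3 : |Lam f g S j| ≤ |Lam f g S j - ∑ k ∈ st, Lam f g k.1 k.2| + |∑ k ∈ st, Lam f g k.1 k.2| := by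
        have := abs_add_le (Lam f g S j - ∑ k ∈ st, Lam f g k.1 k.2) (∑ k ∈ st, Lam f g k.1 k.2)
        rw [sub_add_cancel] at this
        exact this
      linarith

theorem sparseDom_of (h : OneStep) : SparseDom := by
  obtain ⟨C, hC, h⟩ := h
  refine ⟨C, hC, fun f g hf hg S j => ?_⟩
  obtain ⟨F, E, h1, _, h3⟩ := sparse_aux hC hf hg (fun S j => h f g hf hg S j) S j
  exact ⟨F, E, h1, h3⟩

end Pool.Agent.V8H55.AP
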