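import Pool.Agent.V8H55.AP.StepA

/-!
# One step of the stopping argument
-/

set_option autoImplicit false

open Finset

namespace Pool.Agent.V8H55.AP

section

variable {f g : ℤ → ℝ} {S : ℕ} {j : ℤ} {la lb : ℝ} {τ τ' : ℤ → ℕ}

theorem J_sub_J {s t : ℕ} {n : ℤ} (h : s ≤ t) : J s (n / 2 ^ s) ⊆ J t (n / 2 ^ t) := by
  intro m hm
  have h0 : (0 : ℤ) < 2 ^ t := by positivity
  have hs : (0 : ℤ) < 2 ^ s := by positivity
  have h1 : (2 : ℤ) ^ s ≤ 2 ^ t := pow_le_pow_right₀ (by norm_num) h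
  obtain ⟨r, rfl⟩ := Nat.exists_eq_add_of_le h
  have e : ∀ x : ℤ, x / 2 ^ (s + r) = (x / 2 ^ s) / 2 ^ r := fun x => by
    rw [pow_add, Int.ediv_ediv_of_nonneg (by positivity)]
  rw [mem_J] at hm ⊢
  rw [e m, e n]
  have hr : (0 : ℤ) < 2 ^ r := by positivity
  set a := n / 2 ^ s
  have h3 := Int.ediv_mul_le a hr.ne'
  have h4 := Int.lt_ediv_add_one_mul_self a hr
  have hr1 : (1 : ℤ) ≤ 2 ^ r := hr
  have key : ∀ b : ℤ, (b = a - 1 ∨ b = a ∨ b = a + 1) → (a / 2 ^ r - 1 ≤ b / 2 ^ r ∧ b / 2 ^ r ≤ a / 2 ^ r + 1) := by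
    intro b hb
    constructor
    · apply Int.le_ediv_of_mul_le hr
      rcases hb with rfl | rfl | rfl <;> nlinarith
    · apply Int.lt_add_one_iff.1
      apply Int.ediv_lt_of_lt_mul hr
      rcases hb with rfl | rfl | rfl <;> nlinarith
  have := key (m / 2 ^ s) hm
  omega

theorem Lam_eq (H : Stop τ) {U : Finset ℤ} (hU : Closed τ U) {κ : ℕ × ℤ} (hκ : κ ∈ U.image (key τ))
    (u v : ℤ → ℝ) {B : Finset ℤ} (hB : J κ.1 κ.2 ⊆ B) :
    ∑ n ∈ I κ.1 κ.2, ∑ m ∈ B, u n * v m * T (τ n) (m - n) = Lam u v κ.1 κ.2 := by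
  unfold Lam
  refine Finset.sum_congr rfl fun n hn => ?_
  have h1 : τ n = κ.1 := by
    have := (key_of_mem H hU hκ hn).1
    rw [← this]; rfl
  rw [h1, eq_comm]
  apply Finset.sum_subset hB
  intro m _ hm
  have : 2 ^ κ.1 ≤ |m - n| := by
    by_contra hc
    exact hm (mem_J_of_near hn (not_le.1 hc))
  rw [T_far this, mul_zero]

theorem cell_sub (H : Hyp f g S j la lb τ τ') {κ : ℕ × ℤ} (hκ : κ ∈ (I S j).image (key τ)) :
    κ.1 < S ∧ I κ.1 κ.2 ⊆ I S j ∧ J κ.1 κ.2 ⊆ J S j := by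
  obtain ⟨n, hn, rfl⟩ := Finset.mem_image.1 hκ
  have h1 := H.lt n
  rw [mem_I] at hn
  refine ⟨h1, ?_, ?_⟩
  · have := I_sub_I (n := n) h1.le
    rw [hn] at this; exact this
  · have := J_sub_J (n := n) h1.le
    rw [hn] at this; exact this

/-- third estimate -/
theorem X3 (hH : HilbertIneq) (H : Hyp f g S j la lb τ τ') :
    |∑ n ∈ I S j, ∑ m ∈ J S j, ca τ f n * ca τ' g m * (T S (m - n) - T (τ n) (m - n))| ≤
      88 * (la * lb * 2 ^ S) := by
  classical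
  have e1 : ∑ n ∈ I S j, ∑ m ∈ J S j, ca τ f n * ca τ' g m * (T S (m - n) - T (τ n) (m - n)) =
      Lam (ca τ f) (ca τ' g) S j - ∑ κ ∈ (I S j).image (key τ), Lam (ca τ f) (ca τ' g) κ.1 κ.2 := by
    have e2 : ∑ κ ∈ (I S j).image (key τ), Lam (ca τ f) (ca τ' g) κ.1 κ.2 =
        ∑ n ∈ I S j, ∑ m ∈ J S j, ca τ f n * ca τ' g m * T (τ n) (m - n) := by
      rw [fib H.st H.clI]
      refine Finset.sum_congr rfl fun κ hκ => ?_
      rw [Lam_eq H.st H.clI hκ _ _ (cell_sub H hκ).2.2]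
    rw [e2]
    unfold Lam
    rw [← Finset.sum_sub_distrib]
    refine Finset.sum_congr rfl fun n _ => ?_
    rw [← Finset.sum_sub_distrib]
    refine Finset.sum_congr rfl fun m _ => ?_
    ring
  rw [e1]
  have hu : ∀ n ∈ I S j, |ca τ f n| ≤ 2 * la := fun n hn => by
    rw [abs_of_nonneg (ca_nonneg H.f0 n)]; exact ca_le_f H hn
  have hv : ∀ m ∈ J S j, |ca τ' g m| ≤ 2 * lb := fun m hm => by
    rw [abs_of_nonneg (ca_nonneg H.g0 m)]; exact ca_le_g H hm
  have la2 : 0 ≤ 2 * la := by linarith [H.la0]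
  have lb2 : 0 ≤ 2 * lb := by linarith [H.lb0]
  have h1 := l2loc hH (ca τ f) (ca τ' g) S j la2 lb2 hu hv
  have h2 : |∑ κ ∈ (I S j).image (key τ), Lam (ca τ f) (ca τ' g) κ.1 κ.2| ≤
      ∑ κ ∈ (I S j).image (key τ), 11 * (2 * la * (2 * lb) * 2 ^ κ.1) := by
    refine (Finset.abs_sum_le_sum_abs _ _).trans ?_
    refine Finset.sum_le_sum fun κ hκ => ?_
    exact l2loc hH (ca τ f) (ca τ' g) κ.1 κ.2 la2 lb2
      (fun n hn => hu n ((cell_sub H hκ).2.1 hn)) (fun m hm => hv m ((cell_sub H hκ).2.2 hm))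
  have h3 : ∑ κ ∈ (I S j).image (key τ), (2 : ℝ) ^ κ.1 = 2 ^ S := by
    have h4 := fib H.st H.clI (fun _ => (1 : ℝ))
    simp only [Finset.sum_const, card_I, nsmul_eq_mul, mul_one] at h4
    push_cast at h4
    exact h4.symm
  have h5 : ∑ κ ∈ (I S j).image (key τ), 11 * (2 * la * (2 * lb) * (2 : ℝ) ^ κ.1) = 11 * (2 * la * (2 * lb) * 2 ^ S) := by
    rw [← h3, Finset.mul_sum, Finset.mul_sum]
  rw [h5] at h2
  have h6 : |Lam (ca τ f) (ca τ' g) S j| ≤ 11 * (2 * la * (2 * lb) * 2 ^ S) := h1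
  have h7 := abs_sub (Lam (ca τ f) (ca τ' g) S j) (∑ κ ∈ (I S j).image (key τ), Lam (ca τ f) (ca τ' g) κ.1 κ.2)
  nlinarith

theorem total (hH : HilbertIneq) (H : Hyp f g S j la lb τ τ') :
    |Lam f g S j - ∑ κ ∈ (I S j).image (key τ), Lam f g κ.1 κ.2| ≤
      80 * la * (∑ m ∈ J S j, g m) + 128 * lb * (∑ n ∈ J S j, f n) + 88 * (la * lb * 2 ^ S) := by
  classical
  have e1 : Lam f g S j - ∑ κ ∈ (I S j).image (key τ), Lam f g κ.1 κ.2 =
      ∑ n ∈ I S j, ∑ m ∈ J S j, f n * g m * (T S (m - n) - T (τ n) (m - n)) := by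
    have e2 : ∑ κ ∈ (I S j).image (key τ), Lam f g κ.1 κ.2 =
        ∑ n ∈ I S j, ∑ m ∈ J S j, f n * g m * T (τ n) (m - n) := by
      rw [fib H.st H.clI]
      refine Finset.sum_congr rfl fun κ hκ => ?_
      rw [Lam_eq H.st H.clI hκ _ _ (cell_sub H hκ).2.2]
    rw [e2]
    unfold Lam
    rw [← Finset.sum_sub_distrib]
    refine Finset.sum_congr rfl fun n _ => ?_
    rw [← Finset.sum_sub_distrib]
    refine Finset.sum_congr rfl fun m _ => ?_
    ring
  have e3 : ∑ n ∈ I S j, ∑ m ∈ J S j, f n * g m * (T S (m - n) - T (τ n) (m - n)) =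
      (∑ n ∈ I S j, ∑ m ∈ J S j, f n * (g m - ca τ' g m) * (T S (m - n) - T (τ n) (m - n))) +
      (∑ n ∈ I S j, ∑ m ∈ J S j, (f n - ca τ f n) * ca τ' g m * (T S (m - n) - T (τ n) (m - n))) +
      ∑ n ∈ I S j, ∑ m ∈ J S j, ca τ f n * ca τ' g m * (T S (m - n) - T (τ n) (m - n)) := by
    rw [← Finset.sum_add_distrib, ← Finset.sum_add_distrib]
    refine Finset.sum_congr rfl fun n _ => ?_
    rw [← Finset.sum_add_distrib, ← Finset.sum_add_distrib]
    refine Finset.sum_congr rfl fun m _ => ?_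
    ring
  rw [e1, e3]
  have h1 := X1 H
  have h2 := X2 H
  have h3 := X3 hH H
  have h4 : ∑ n ∈ I S j, f n ≤ ∑ n ∈ J S j, f n :=
    Finset.sum_le_sum_of_subset_of_nonneg (I_sub_J S j) fun _ _ _ => H.f0 _
  have h5 : 128 * lb * ∑ n ∈ I S j, f n ≤ 128 * lb * ∑ n ∈ J S j, f n := by
    apply mul_le_mul_of_nonneg_left h4; linarith [H.lb0]
  refine (abs_add_le _ _).trans ?_
  refine le_trans (add_le_add (abs_add_le _ _) le_rfl) ?_
  linarith

end

/-- bad cells for one function -/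
def bd (l : ℝ) (f : ℤ → ℝ) (s : ℕ) (r : ℤ) : Prop := l * 2 ^ s < ∑ n ∈ I s r, f n

/-- bad cells -/
def bd2 (la lb : ℝ) (f g : ℤ → ℝ) (s : ℕ) (r : ℤ) : Prop :=
  bd la f s r ∨ bd lb g s (r - 1) ∨ bd lb g s r ∨ bd lb g s (r + 1)

theorem hyp {f g : ℤ → ℝ} (hf : ∀ n, 0 ≤ f n) (hg : ∀ n, 0 ≤ g n) {S : ℕ} (hS : 1 ≤ S) (j : ℤ) {la lb : ℝ}
    (hla : ∑ n ∈ J S j, f n ≤ la * 2 ^ S) (hlb : ∑ n ∈ J S j, g n ≤ lb * 2 ^ S) :
    Hyp f g S j la lb (tau (bd2 la lb f g) S) (tau (bd lb g) S) where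
  f0 := hf
  g0 := hg
  la0 := by
    have h1 : 0 ≤ ∑ n ∈ J S j, f n := Finset.sum_nonneg fun _ _ => hf _
    have h2 : (0 : ℝ) < 2 ^ S := by positivity
    by_contra h
    nlinarith
  lb0 := by
    have h1 : 0 ≤ ∑ n ∈ J S j, g n := Finset.sum_nonneg fun _ _ => hg _
    have h2 : (0 : ℝ) < 2 ^ S := by positivity
    by_contra h
    nlinarith
  st := tau_stop
  st' := tau_stop
  clI := closed_I hS j
  clJ := closed_J hS j
  lt := fun n => by have := tau_le (bad := bd2 la lb f g) (S := S) n; omega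
  lt' := fun n => by have := tau_le (bad := bd lb g) (S := S) n; omega
  F1 := by
    intro n hn s h1 h2
    rcases Nat.lt_or_ge s (S - 1) with h3 | h3
    · have h4 := tau_not (bad := bd2 la lb f g) (S := S) (n := n) (s := s + 1) (by omega) (by omega)
      unfold bd2 at h4
      push Not at h4
      have h5 := h4.1
      unfold bd at h5
      exact not_lt.1 h5
    · have h4 : s + 1 = S := by omega
      rw [h4]
      rw [mem_I] at hn
      rw [hn]
      exact (Finset.sum_le_sum_of_subset_of_nonneg (I_sub_J S j) fun _ _ _ => hf _).trans hla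
  G1 := by
    intro n hn s h1 h2
    rcases Nat.lt_or_ge s (S - 1) with h3 | h3
    · have h4 := tau_not (bad := bd lb g) (S := S) (n := n) (s := s + 1) (by omega) (by omega)
      unfold bd at h4
      exact not_lt.1 h4
    · have h4 : s + 1 = S := by omega
      rw [h4]
      refine le_trans (Finset.sum_le_sum_of_subset_of_nonneg ?_ fun _ _ _ => hg _) hlb
      intro m hm
      rw [mem_I] at hm
      rw [mem_J] at hn ⊢
      rw [hm]; exact hn
  F2 := by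
    intro n hn s h1 m h2
    by_contra h3
    push Not at h3
    set t := tau (bd lb g) S m with ht
    have h4 : t ≤ S - 1 := tau_le m
    have h5 : bd lb g t (m / 2 ^ t) := by
      by_contra hc
      have := tau_zero hc
      omega
    have h6 : |m - n| < 2 ^ t := by
      refine lt_of_lt_of_le h2 ?_
      exact pow_le_pow_right₀ (by norm_num) h3
    have h7 : m ∈ J t (n / 2 ^ t) := mem_J_of_near (mem_I.2 rfl) h6
    rw [mem_J] at h7
    have h8 : bd2 la lb f g t (n / 2 ^ t) := by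
      unfold bd2
      rcases h7 with h | h | h
      · rw [h] at h5; exact Or.inr (Or.inl h5)
      · rw [h] at h5; exact Or.inr (Or.inr (Or.inl h5))
      · rw [h] at h5; exact Or.inr (Or.inr (Or.inr h5))
    have h9 := (tau_ge h4 h8).1
    omega

open Classical in
/-- the number of points in bad cells -/
theorem size {f g : ℤ → ℝ} (hf : ∀ n, 0 ≤ f n) (hg : ∀ n, 0 ≤ g n) {S : ℕ} (hS : 1 ≤ S) (j : ℤ) {la lb : ℝ}
    (hla0 : 0 < la) (hlb0 : 0 < lb)
    (hla : 8 * ∑ n ∈ J S j, f n ≤ la * 2 ^ S) (hlb : 8 * ∑ n ∈ J S j, g n ≤ lb * 2 ^ S) :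
    2 * ∑ κ ∈ ((I S j).image (key (tau (bd2 la lb f g) S))).filter (fun κ => bd2 la lb f g κ.1 κ.2), 2 ^ κ.1 ≤ 2 ^ S := by
  set τ := tau (bd2 la lb f g) S with hτ
  set τf := tau (bd la f) S with hτf
  set τg := tau (bd lb g) S with hτg
  -- first as a cardinality
  have hfib := fib (τ := τ) tau_stop (closed_I hS j) (fun n => if bd2 la lb f g (key τ n).1 (key τ n).2 then (1 : ℝ) else 0)
  have e1 : ∑ κ ∈ (I S j).image (key τ), ∑ n ∈ I κ.1 κ.2, (if bd2 la lb f g (key τ n).1 (key τ n).2 then (1 : ℝ) else 0) =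
      ∑ κ ∈ ((I S j).image (key τ)).filter (fun κ => bd2 la lb f g κ.1 κ.2), (2 : ℝ) ^ κ.1 := by
    rw [Finset.sum_filter]
    refine Finset.sum_congr rfl fun κ hκ => ?_
    rw [Finset.sum_congr rfl fun n hn => by rw [(key_of_mem tau_stop (closed_I hS j) hκ hn).1]]
    rw [Finset.sum_const, card_I]
    split_ifs <;> simp
  rw [e1, ← Finset.sum_filter, Finset.sum_const, nsmul_eq_mul, mul_one] at hfib
  set N := (I S j).filter (fun n => bd2 la lb f g (key τ n).1 (key τ n).2) with hN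
  set Pf := ((I S j).image (key τf)).filter (fun κ => la * 2 ^ κ.1 < ∑ n ∈ I κ.1 κ.2, f n) with hPf
  set Pg := ((J S j).image (key τg)).filter (fun κ => lb * 2 ^ κ.1 < ∑ n ∈ I κ.1 κ.2, g n) with hPg
  have hcov : N ⊆ (Pf.biUnion fun κ => I κ.1 κ.2) ∪ (Pg.biUnion fun κ => J κ.1 κ.2) := by
    intro n hn
    rw [hN, Finset.mem_filter] at hn
    obtain ⟨hn1, hn2⟩ := hn
    rw [Finset.mem_union, Finset.mem_biUnion, Finset.mem_biUnion]
    have hle : τ n ≤ S - 1 := tau_le n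
    have hn3 : bd2 la lb f g (τ n) (n / 2 ^ τ n) := hn2
    have gcase : ∀ m : ℤ, m / 2 ^ τ n = n / 2 ^ τ n - 1 ∨ m / 2 ^ τ n = n / 2 ^ τ n ∨ m / 2 ^ τ n = n / 2 ^ τ n + 1 →
        bd lb g (τ n) (m / 2 ^ τ n) → ∃ κ ∈ Pg, n ∈ J κ.1 κ.2 := by
      intro m hm hb
      have h1 := tau_ge hle hb
      have hmJ : m ∈ J S j := by
        have h2 := J_sub_J (n := n) (s := τ n) (t := S) (by omega)
        have h3 : m ∈ J (τ n) (n / 2 ^ τ n) := mem_J.2 hm
        have h4 := h2 h3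
        rw [mem_I.1 hn1] at h4; exact h4
      refine ⟨key τg m, ?_, ?_⟩
      · rw [hPg, Finset.mem_filter]
        exact ⟨Finset.mem_image_of_mem _ hmJ, h1.2⟩
      · have h2 := J_sub_J (n := m) (s := τ n) (t := τg m) h1.1
        apply h2
        rw [mem_J]
        omega
    rcases hn3 with h | h | h | h
    · left
      have h1 := tau_ge hle h
      refine ⟨key τf n, ?_, ?_⟩
      · rw [hPf, Finset.mem_filter]
        exact ⟨Finset.mem_image_of_mem _ hn1, h1.2⟩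
      · rw [mem_I]; rfl
    · right
      have e : (n - 2 ^ τ n) / 2 ^ τ n = n / 2 ^ τ n - 1 := by
        have h0 : (2 : ℤ) ^ τ n ≠ 0 := by positivity
        have := Int.add_mul_ediv_right n (-1) h0
        rw [show n + -1 * 2 ^ τ n = n - 2 ^ τ n by ring] at this
        rw [this]; ring
      apply gcase (n - 2 ^ τ n) (Or.inl e)
      rw [e]; exact h
    · right
      exact gcase n (Or.inr (Or.inl rfl)) h
    · right
      have e : (n + 2 ^ τ n) / 2 ^ τ n = n / 2 ^ τ n + 1 := by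
        have h0 : (2 : ℤ) ^ τ n ≠ 0 := by positivity
        have := Int.add_mul_ediv_right n 1 h0
        rw [one_mul] at this
        exact this
      apply gcase (n + 2 ^ τ n) (Or.inr (Or.inr e))
      rw [e]; exact h
  have hc1 : ((#N : ℕ) : ℝ) ≤ (∑ κ ∈ Pf, (2 : ℝ) ^ κ.1) + 3 * ∑ κ ∈ Pg, (2 : ℝ) ^ κ.1 := by
    have h1 := Finset.card_le_card hcov
    have h2 := Finset.card_union_le (Pf.biUnion fun κ => I κ.1 κ.2) (Pg.biUnion fun κ => J κ.1 κ.2)
    have h3 : #(Pf.biUnion fun κ => I κ.1 κ.2) ≤ ∑ κ ∈ Pf, 2 ^ κ.1 := by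
      refine Finset.card_biUnion_le.trans ?_
      exact Finset.sum_le_sum fun κ _ => (card_I _ _).le
    have h4 : #(Pg.biUnion fun κ => J κ.1 κ.2) ≤ ∑ κ ∈ Pg, 3 * 2 ^ κ.1 := by
      refine Finset.card_biUnion_le.trans ?_
      exact Finset.sum_le_sum fun κ _ => (card_J _ _).le
    have h5 : #N ≤ ∑ κ ∈ Pf, 2 ^ κ.1 + ∑ κ ∈ Pg, 3 * 2 ^ κ.1 := by omega
    have h6 : ((#N : ℕ) : ℝ) ≤ ((∑ κ ∈ Pf, 2 ^ κ.1 + ∑ κ ∈ Pg, 3 * 2 ^ κ.1 : ℕ) : ℝ) := by exact_mod_cast h5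
    refine h6.trans (le_of_eq ?_)
    push_cast
    rw [Finset.mul_sum]
  have hm1 : la * ∑ κ ∈ Pf, (2 : ℝ) ^ κ.1 ≤ ∑ n ∈ I S j, f n := max_est hf hla0 (closed_I hS j)
  have hm2 : lb * ∑ κ ∈ Pg, (2 : ℝ) ^ κ.1 ≤ ∑ n ∈ J S j, g n := max_est hg hlb0 (closed_J hS j)
  have hm3 : ∑ n ∈ I S j, f n ≤ ∑ n ∈ J S j, f n :=
    Finset.sum_le_sum_of_subset_of_nonneg (I_sub_J S j) fun _ _ _ => hf _
  have hq1 : 8 * ∑ κ ∈ Pf, (2 : ℝ) ^ κ.1 ≤ 2 ^ S := by
    have : la * (8 * ∑ κ ∈ Pf, (2 : ℝ) ^ κ.1) ≤ la * 2 ^ S := by linarith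
    exact le_of_mul_le_mul_left this hla0
  have hq2 : 8 * ∑ κ ∈ Pg, (2 : ℝ) ^ κ.1 ≤ 2 ^ S := by
    have : lb * (8 * ∑ κ ∈ Pg, (2 : ℝ) ^ κ.1) ≤ lb * 2 ^ S := by linarith
    exact le_of_mul_le_mul_left this hlb0
  have hfin : 2 * ((#N : ℕ) : ℝ) ≤ 2 ^ S := by linarith
  rw [hfib] at hfin
  exact_mod_cast hfin

theorem oneStep (hH : HilbertIneq) : OneStep := by
  classical
  refine ⟨7296, by norm_num, fun f g hf hg S j => ?_⟩
  set F := ∑ n ∈ J S j, f n with hF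
  set G := ∑ n ∈ J S j, g n with hG
  have hF0 : 0 ≤ F := Finset.sum_nonneg fun _ _ => hf _
  have hG0 : 0 ≤ G := Finset.sum_nonneg fun _ _ => hg _
  have trivial_case : Lam f g S j = 0 → ∃ st : Finset (ℕ × ℤ),
      (∀ k ∈ st, k.1 < S ∧ I k.1 k.2 ⊆ I S j) ∧
      (∀ k ∈ st, ∀ k' ∈ st, k ≠ k' → Disjoint (I k.1 k.2) (I k'.1 k'.2)) ∧
      2 * ∑ k ∈ st, 2 ^ k.1 ≤ 2 ^ S ∧
      |Lam f g S j - ∑ k ∈ st, Lam f g k.1 k.2| ≤ 7296 * (F * G / 2 ^ S) := by
    intro h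
    refine ⟨∅, by simp, by simp, by simp, ?_⟩
    rw [h]; simp only [Finset.sum_empty, sub_zero, abs_zero]; positivity
  rcases Nat.eq_zero_or_pos S with h0 | hS
  · apply trivial_case
    unfold Lam
    refine Finset.sum_eq_zero fun n _ => Finset.sum_eq_zero fun m _ => ?_
    rw [h0, T_zero, mul_zero]
  rcases hF0.eq_or_lt with hFz | hFp
  · apply trivial_case
    unfold Lam
    have hz := (Finset.sum_eq_zero_iff_of_nonneg (fun n _ => hf n)).1 (hF.symm.trans hFz.symm)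
    refine Finset.sum_eq_zero fun n hn => Finset.sum_eq_zero fun m _ => ?_
    rw [hz n (I_sub_J S j hn)]; ring
  rcases hG0.eq_or_lt with hGz | hGp
  · apply trivial_case
    unfold Lam
    have hz := (Finset.sum_eq_zero_iff_of_nonneg (fun n _ => hg n)).1 (hG.symm.trans hGz.symm)
    refine Finset.sum_eq_zero fun n hn => Finset.sum_eq_zero fun m hm => ?_
    rw [hz m hm]; ring
  have h2S : (0 : ℝ) < 2 ^ S := by positivity
  set la := 8 * F / 2 ^ S with hla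
  set lb := 8 * G / 2 ^ S with hlb
  have hla0 : 0 < la := by positivity
  have hlb0 : 0 < lb := by positivity
  have ela : la * 2 ^ S = 8 * F := by rw [hla]; field_simp
  have elb : lb * 2 ^ S = 8 * G := by rw [hlb]; field_simp
  have H := hyp hf hg hS j (la := la) (lb := lb) (by rw [ela]; linarith) (by rw [elb]; linarith)
  set τ := tau (bd2 la lb f g) S with hτ
  refine ⟨((I S j).image (key τ)).filter (fun κ => bd2 la lb f g κ.1 κ.2), ?_, ?_, ?_, ?_⟩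
  · intro κ hκ
    rw [Finset.mem_filter] at hκ
    exact ⟨(cell_sub H hκ.1).1, (cell_sub H hκ.1).2.1⟩
  · intro κ hκ κ' hκ' hne
    rw [Finset.mem_filter] at hκ hκ'
    rw [Finset.disjoint_left]
    intro n h1 h2
    apply hne
    rw [← (key_of_mem H.st H.clI hκ.1 h1).1, ← (key_of_mem H.st H.clI hκ'.1 h2).1]
  · exact size hf hg hS j hla0 hlb0 (by rw [ela]) (by rw [elb])
  · have h1 := total hH H
    have h2 : ∑ κ ∈ ((I S j).image (key τ)).filter (fun κ => bd2 la lb f g κ.1 κ.2), Lam f g κ.1 κ.2 =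
        ∑ κ ∈ (I S j).image (key τ), Lam f g κ.1 κ.2 := by
      apply Finset.sum_subset (Finset.filter_subset _ _)
      intro κ hκ hκ'
      have h3 : ¬ bd2 la lb f g κ.1 κ.2 := fun h => hκ' (Finset.mem_filter.2 ⟨hκ, h⟩)
      obtain ⟨n, hn, rfl⟩ := Finset.mem_image.1 hκ
      have h4 : τ n = 0 := tau_zero h3
      unfold Lam
      refine Finset.sum_eq_zero fun a _ => Finset.sum_eq_zero fun b _ => ?_
      have : (key τ n).1 = 0 := h4
      rw [this, T_zero, mul_zero]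
    rw [h2]
    refine h1.trans (le_of_eq ?_)
    rw [← hF, ← hG, hla, hlb]
    field_simp
    ring

end Pool.Agent.V8H55.AP
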